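import Mathlib

set_option autoImplicit false

/-!
Covering dimension of subsets of metrizable spaces: closed subspaces, the countable closed sum
theorem and the subspace theorem.
-/

namespace Pool.Agent.Lib.MP_e6a955_gt

open Set Topology Filter TopologicalSpace

/-- Covering dimension of the subspace `A` is at most `n` (shrinking form). -/
def DimLE {T : Type*} [TopologicalSpace T] (n : ℕ) (A : Set T) : Prop :=
  ∀ (ι : Type) [Finite ι] (U : ι → Set T), (∀ i, IsOpen (U i)) → (∀ y ∈ A, ∃ i, y ∈ U i) →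
    ∃ V : ι → Set T, (∀ i, IsOpen (V i)) ∧ (∀ i, V i ⊆ U i) ∧ (∀ y ∈ A, ∃ i, y ∈ V i) ∧
      ∀ y ∈ A, ∀ s : Finset ι, s.card = n + 2 → ∃ i ∈ s, y ∉ V i

variable {T S : Type*} [TopologicalSpace T] [TopologicalSpace S] {n : ℕ}

/-- Refinements give shrinkings. -/
theorem shrink_of_refine {A : Set T} {ι κ : Type} (U : ι → Set T) (W : κ → Set T)
    (hWo : ∀ j, IsOpen (W j)) (hWU : ∀ j, ∃ i, W j ⊆ U i) (hWc : ∀ y ∈ A, ∃ j, y ∈ W j)
    (hWord : ∀ y ∈ A, ∀ s : Finset κ, s.card = n + 2 → ∃ j ∈ s, y ∉ W j) :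
    ∃ V : ι → Set T, (∀ i, IsOpen (V i)) ∧ (∀ i, V i ⊆ U i) ∧ (∀ y ∈ A, ∃ i, y ∈ V i) ∧
      ∀ y ∈ A, ∀ s : Finset ι, s.card = n + 2 → ∃ i ∈ s, y ∉ V i := by
  classical
  choose c hc using hWU
  refine ⟨fun i => ⋃ j ∈ {j | c j = i}, W j, fun i => isOpen_biUnion fun j _ => hWo j, ?_, ?_, ?_⟩
  · intro i y hy
    simp only [mem_iUnion] at hy
    obtain ⟨j, hj, hyj⟩ := hy
    have hj' : c j = i := hj
    exact hj' ▸ hc j hyj
  · intro y hy
    obtain ⟨j, hj⟩ := hWc y hy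
    exact ⟨c j, mem_biUnion (show j ∈ {j' | c j' = c j} from rfl) hj⟩
  · intro y hy s hs
    by_contra hcon
    push Not at hcon
    have h1 : ∀ i : s, ∃ j, c j = i ∧ y ∈ W j := by
      intro i
      have := hcon i i.2
      simp only [mem_iUnion] at this
      obtain ⟨j, hj, hyj⟩ := this
      exact ⟨j, hj, hyj⟩
    choose d hd1 hd2 using h1
    have hinj : Function.Injective d := by
      intro a b hab
      apply Subtype.ext
      rw [← hd1 a, ← hd1 b, hab]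
    obtain ⟨j, hj, hyj⟩ := hWord y hy (Finset.univ.image d) (by
      rw [Finset.card_image_of_injective _ hinj]; simpa using hs)
    obtain ⟨a, -, rfl⟩ := Finset.mem_image.1 hj
    exact hyj (hd2 a)

theorem DimLE.inter_closed {B F : Set T} (hB : DimLE n B) (hF : IsClosed F) :
    DimLE n (B ∩ F) := by
  intro ι _ U hUo hUc
  by_cases hne : (B ∩ F).Nonempty
  · obtain ⟨y0, hy0⟩ := hne
    obtain ⟨i0, -⟩ := hUc y0 hy0
    obtain ⟨V, hVo, hVU, hVc, hVord⟩ := hB ι (fun i => U i ∪ Fᶜ)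
      (fun i => (hUo i).union hF.isOpen_compl) (by
        intro y hy
        by_cases hyF : y ∈ F
        · obtain ⟨i, hi⟩ := hUc y ⟨hy, hyF⟩
          exact ⟨i, Or.inl hi⟩
        · exact ⟨i0, Or.inr hyF⟩)
    refine ⟨fun i => V i ∩ U i, fun i => (hVo i).inter (hUo i), fun i => inter_subset_right,
      ?_, ?_⟩
    · intro y hy
      obtain ⟨i, hi⟩ := hVc y hy.1
      rcases hVU i hi with h | h
      · exact ⟨i, hi, h⟩
      · exact absurd hy.2 h
    · intro y hy s hs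
      obtain ⟨i, hi, hyi⟩ := hVord y hy.1 s hs
      exact ⟨i, hi, fun h => hyi h.1⟩
  · refine ⟨U, hUo, fun i => Subset.rfl, hUc, fun y hy => absurd ⟨y, hy⟩ hne⟩

theorem DimLE.of_image {e : S → T} (he : IsInducing e) {A : Set S} (h : DimLE n (e '' A)) :
    DimLE n A := by
  intro ι _ U hUo hUc
  have : ∀ i, ∃ U' : Set T, IsOpen U' ∧ e ⁻¹' U' = U i := fun i => he.isOpen_iff.1 (hUo i)
  choose U' hU'o hU' using this
  obtain ⟨V, hVo, hVU, hVc, hVord⟩ := h ι U' hU'o (by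
    rintro _ ⟨y, hy, rfl⟩
    obtain ⟨i, hi⟩ := hUc y hy
    exact ⟨i, by rw [← hU' i] at hi; exact hi⟩)
  refine ⟨fun i => e ⁻¹' V i, fun i => (hVo i).preimage he.continuous, ?_, ?_, ?_⟩
  · intro i
    rw [← hU' i]
    exact preimage_mono (hVU i)
  · intro y hy
    exact hVc _ (mem_image_of_mem e hy)
  · intro y hy s hs
    exact hVord _ (mem_image_of_mem e hy) s hs

theorem DimLE.image {e : S → T} (he : IsInducing e) {A : Set S} (h : DimLE n A) :
    DimLE n (e '' A) := by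
  intro ι _ U hUo hUc
  obtain ⟨V, hVo, hVU, hVc, hVord⟩ := h ι (fun i => e ⁻¹' U i)
    (fun i => (hUo i).preimage he.continuous) (fun y hy => hUc _ (mem_image_of_mem e hy))
  have : ∀ i, ∃ V' : Set T, IsOpen V' ∧ e ⁻¹' V' = V i := fun i => he.isOpen_iff.1 (hVo i)
  choose V' hV'o hV' using this
  refine ⟨fun i => V' i ∩ U i, fun i => (hV'o i).inter (hUo i), fun i => inter_subset_right,
    ?_, ?_⟩
  · rintro _ ⟨y, hy, rfl⟩
    obtain ⟨i, hi⟩ := hVc y hy
    refine ⟨i, ?_, hVU i hi⟩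
    rw [← hV' i] at hi; exact hi
  · rintro _ ⟨y, hy, rfl⟩ s hs
    obtain ⟨i, hi, hyi⟩ := hVord y hy s hs
    refine ⟨i, hi, fun h => hyi ?_⟩
    rw [← hV' i]; exact h.1

/-- In a metrizable space every closed set is a zero set. -/
theorem exists_zero_fun [MetrizableSpace T] {F : Set T} (hF : IsClosed F) :
    ∃ d : T → ℝ, Continuous d ∧ (∀ y, 0 ≤ d y) ∧ ∀ y, d y = 0 ↔ y ∈ F := by
  let := metrizableSpaceMetric T
  rcases F.eq_empty_or_nonempty with rfl | hne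
  · exact ⟨fun _ => 1, continuous_const, fun _ => zero_le_one, by simp⟩
  · exact ⟨fun y => Metric.infDist y F, Metric.continuous_infDist_pt F,
      fun _ => Metric.infDist_nonneg, fun y => (hF.mem_iff_infDist_zero hne).symm⟩

/-- One step of the sum theorem. -/
theorem sum_step [MetrizableSpace T] {Z : Set T} (hZ : IsClosed Z) (hd : DimLE n Z)
    {ι : Type} [Finite ι] (U : ι → Set T) (hUo : ∀ i, IsOpen (U i)) (hUc : ∀ y, ∃ i, y ∈ U i) :
    ∃ W : ι → Set T, (∀ i, IsOpen (W i)) ∧ (∀ y, ∃ i, y ∈ W i) ∧ (∀ i, closure (W i) ⊆ U i) ∧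
      ∀ y ∈ Z, ∀ s : Finset ι, s.card = n + 2 → ∃ i ∈ s, y ∉ closure (W i) := by
  obtain ⟨V, hVo, hVU, hVc, hVord⟩ := hd ι U hUo (fun y _ => hUc y)
  obtain ⟨W, hWc, hWo, hWV⟩ := exists_subset_iUnion_closure_subset (s := (univ : Set T))
    (u := fun i => V i ∪ (U i ∩ Zᶜ)) isClosed_univ
    (fun i => (hVo i).union ((hUo i).inter hZ.isOpen_compl)) (fun x _ => toFinite _) (by
      intro y _
      by_cases hy : y ∈ Z
      · obtain ⟨i, hi⟩ := hVc y hy
        exact mem_iUnion.2 ⟨i, Or.inl hi⟩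
      · obtain ⟨i, hi⟩ := hUc y
        exact mem_iUnion.2 ⟨i, Or.inr ⟨hi, hy⟩⟩)
  refine ⟨W, hWo, fun y => mem_iUnion.1 (hWc (mem_univ y)), ?_, ?_⟩
  · intro i y hy
    rcases hWV i hy with h | h
    · exact hVU i h
    · exact h.1
  · intro y hy s hs
    obtain ⟨i, hi, hyi⟩ := hVord y hy s hs
    refine ⟨i, hi, fun h => ?_⟩
    rcases hWV i h with h | h
    · exact hyi h
    · exact h.2 hy

/-- Swelling a finite closed family. -/
theorem swell [MetrizableSpace T] {ι : Type} [Finite ι] (F U : ι → Set T)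
    (hF : ∀ i, IsClosed (F i)) (hUo : ∀ i, IsOpen (U i)) (hFU : ∀ i, F i ⊆ U i)
    (hord : ∀ y, ∀ s : Finset ι, s.card = n + 2 → ∃ i ∈ s, y ∉ F i) :
    ∃ V : ι → Set T, (∀ i, IsOpen (V i)) ∧ (∀ i, V i ⊆ U i) ∧ (∀ i, F i ⊆ V i) ∧
      ∀ y, ∀ s : Finset ι, s.card = n + 2 → ∃ i ∈ s, y ∉ V i := by
  choose d hdc hd0 hdF using fun i => exists_zero_fun (hF i)
  refine ⟨fun i => U i ∩ ⋂ s : {s : Finset ι // s.card = n + 2},
    ⋃ j ∈ s.1, {y | d i y < d j y}, ?_, fun i => inter_subset_left, ?_, ?_⟩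
  · intro i
    refine (hUo i).inter (isOpen_iInter_of_finite fun s => ?_)
    exact isOpen_biUnion fun j _ => isOpen_lt (hdc i) (hdc j)
  · intro i y hy
    refine ⟨hFU i hy, mem_iInter.2 fun s => ?_⟩
    obtain ⟨j, hj, hyj⟩ := hord y s.1 s.2
    refine mem_biUnion hj ?_
    have h1 : d i y = 0 := (hdF i y).2 hy
    have h2 : d j y ≠ 0 := fun h => hyj ((hdF j y).1 h)
    show d i y < d j y
    rw [h1]
    exact lt_of_le_of_ne (hd0 j y) h2.symm
  · intro y s hs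
    have hne : s.Nonempty := Finset.card_pos.1 (by omega)
    obtain ⟨i, hi, hmax⟩ := s.exists_max_image (fun i => d i y) hne
    refine ⟨i, hi, fun h => ?_⟩
    have h2 := mem_iInter.1 h.2 ⟨s, hs⟩
    simp only [mem_iUnion] at h2
    obtain ⟨j, hj, hlt⟩ := h2
    exact absurd (hmax j hj) (not_le.2 hlt)

/-- The countable closed sum theorem. -/
theorem dimLE_of_seq [MetrizableSpace T] (Z : ℕ → Set T) (hZ : ∀ j, IsClosed (Z j))
    (hd : ∀ j, DimLE n (Z j)) (hc : ∀ y, ∃ j, y ∈ Z j) : DimLE n (univ : Set T) := by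
  intro ι _ U hUo hUc
  let C := {U : ι → Set T // (∀ i, IsOpen (U i)) ∧ ∀ y, ∃ i, y ∈ U i}
  have hstep : ∀ (j : ℕ) (U : C), ∃ W : C, (∀ i, closure (W.1 i) ⊆ U.1 i) ∧
      ∀ y ∈ Z j, ∀ s : Finset ι, s.card = n + 2 → ∃ i ∈ s, y ∉ closure (W.1 i) := by
    intro j U
    obtain ⟨W, h1, h2, h3, h4⟩ := sum_step (hZ j) (hd j) U.1 U.2.1 U.2.2
    exact ⟨⟨W, h1, h2⟩, h3, h4⟩
  choose step hstep1 hstep2 using hstep
  let seq : ℕ → C := fun j => Nat.rec ⟨U, hUo, fun y => hUc y (mem_univ y)⟩ step j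
  have hseq : ∀ j, seq (j + 1) = step j (seq j) := fun j => rfl
  have hanti : ∀ i, Antitone fun j => (seq j).1 i := by
    intro i
    refine antitone_nat_of_succ_le fun j => ?_
    rw [hseq]
    exact subset_closure.trans (hstep1 j (seq j) i)
  obtain ⟨V, hVo, hVU, hFV, hVord⟩ := swell (n := n)
    (fun i => ⋂ j, closure ((seq (j + 1)).1 i)) U
    (fun i => isClosed_iInter fun j => isClosed_closure) hUo
    (fun i => (iInter_subset _ 0).trans (hstep1 0 (seq 0) i)) (by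
      intro y s hs
      obtain ⟨j, hj⟩ := hc y
      obtain ⟨i, hi, hyi⟩ := hstep2 j (seq j) y hj s hs
      exact ⟨i, hi, fun h => hyi (mem_iInter.1 h j)⟩)
  refine ⟨V, hVo, hVU, ?_, fun y _ => hVord y⟩
  intro y _
  by_contra hcon
  push Not at hcon
  have h1 : ∀ i, ∃ j, y ∉ closure ((seq (j + 1)).1 i) := by
    intro i
    by_contra h
    push Not at h
    exact hcon i (hFV i (mem_iInter.2 h))
  choose J hJ using h1
  obtain ⟨M, hM⟩ := (finite_range J).bddAbove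
  obtain ⟨i, hi⟩ := (seq (M + 1)).2.2 y
  exact hJ i (subset_closure (hanti i (Nat.succ_le_succ (hM (mem_range_self i))) hi))

theorem dimLE_empty : DimLE n (∅ : Set T) := by
  intro ι _ U hUo hUc
  exact ⟨U, hUo, fun i => Subset.rfl, hUc, fun y hy => absurd hy (notMem_empty y)⟩

theorem dimLE_of_countable [MetrizableSpace T] (𝒵 : Set (Set T)) (h𝒵 : 𝒵.Countable)
    (hZ : ∀ Z ∈ 𝒵, IsClosed Z) (hd : ∀ Z ∈ 𝒵, DimLE n Z) (hc : ∀ y, ∃ Z ∈ 𝒵, y ∈ Z) :
    DimLE n (univ : Set T) := by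
  obtain ⟨f, hf⟩ := (h𝒵.insert ∅).exists_eq_range (insert_nonempty _ _)
  have hmem : ∀ j, f j = ∅ ∨ f j ∈ 𝒵 := fun j => by
    have : f j ∈ insert ∅ 𝒵 := hf ▸ mem_range_self j
    exact this
  refine dimLE_of_seq f ?_ ?_ ?_
  · intro j
    rcases hmem j with h | h
    · rw [h]; exact isClosed_empty
    · exact hZ _ h
  · intro j
    rcases hmem j with h | h
    · rw [h]; exact dimLE_empty
    · exact hd _ h
  · intro y
    obtain ⟨Z, hZ, hy⟩ := hc y
    have : Z ∈ range f := hf ▸ mem_insert_of_mem _ hZ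
    obtain ⟨j, rfl⟩ := this
    exact ⟨j, hy⟩

/-- The subspace theorem for metrizable spaces. -/
theorem DimLE.subset [MetrizableSpace T] {A B : Set T} (hB : DimLE n B) (hAB : A ⊆ B) :
    DimLE n A := by
  intro ι _ U hUo hUc
  let := metrizableSpaceMetric T
  obtain ⟨F, hFc, hFU, hFu, -⟩ := (isOpen_iUnion hUo).exists_iUnion_isClosed
  have hG : DimLE n (univ : Set ↥(B ∩ ⋃ i, U i)) := by
    refine dimLE_of_seq (fun j => Subtype.val ⁻¹' F j)
      (fun j => (hFc j).preimage continuous_subtype_val) (fun j => ?_) ?_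
    · refine DimLE.of_image IsInducing.subtypeVal ?_
      have : Subtype.val '' (Subtype.val ⁻¹' F j : Set ↥(B ∩ ⋃ i, U i)) = B ∩ F j := by
        rw [Subtype.image_preimage_coe]
        ext y
        constructor
        · rintro ⟨⟨h1, -⟩, h2⟩
          exact ⟨h1, h2⟩
        · rintro ⟨h1, h2⟩
          exact ⟨⟨h1, hFU j h2⟩, h2⟩
      rw [this]
      exact hB.inter_closed (hFc j)
    · intro y
      have : (y : T) ∈ ⋃ j, F j := hFu.symm.subset y.2.2
      obtain ⟨j, hj⟩ := mem_iUnion.1 this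
      exact ⟨j, hj⟩
  have hG' := hG.image IsInducing.subtypeVal
  rw [Subtype.coe_image_univ] at hG'
  obtain ⟨V, hVo, hVU, hVc, hVord⟩ := hG' ι U hUo (fun y hy => mem_iUnion.1 hy.2)
  have hA : ∀ y ∈ A, y ∈ B ∩ ⋃ i, U i := fun y hy => ⟨hAB hy, mem_iUnion.2 (hUc y hy)⟩
  exact ⟨V, hVo, hVU, fun y hy => hVc y (hA y hy), fun y hy => hVord y (hA y hy)⟩

end Pool.Agent.Lib.MP_e6a955_gt
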