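import Mathlib

set_option autoImplicit false

/-!
Abstract oscillation systems.  `O y S t` is read as: the oscillation at `y` caused by changing
the coordinates in `S` exceeds `t`.  The set of atoms is covered by countably many graphs of
continuous maps defined on closed sets.
-/

namespace Pool.Agent.Lib.MP_e6a955_gt

open Set Topology Filter TopologicalSpace

/-- The axioms of an oscillation system. -/
structure OscSys {X Y : Type*} [TopologicalSpace X] [TopologicalSpace Y]
    (O : Y → Set X → ℝ → Prop) : Prop where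
  mono : ∀ {y S T t}, S ⊆ T → O y S t → O y T t
  anti : ∀ {y S t t'}, t' ≤ t → O y S t → O y S t'
  sub : ∀ {y S T a b}, O y (S ∪ T) (a + b) → O y S a ∨ O y T b
  tight : ∀ y ε, 0 < ε → ∃ K : Set X, K.Finite ∧ ¬ O y Kᶜ ε
  more : ∀ {y S t}, O y S t → ∃ t', t < t' ∧ O y S t'
  lsc : ∀ V t, IsOpen V → IsOpen {y | O y V t}

variable {X Y : Type*} [TopologicalSpace X] [TopologicalSpace Y] {O : Y → Set X → ℝ → Prop}

namespace OscSys

theorem not_empty (h : OscSys O) (y : Y) {t : ℝ} (ht : 0 ≤ t) : ¬ O y ∅ t := by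
  intro hO
  obtain ⟨t', htt', hO'⟩ := h.more hO
  obtain ⟨K, -, hK⟩ := h.tight y t' (lt_of_le_of_lt ht htt')
  exact hK (h.mono (empty_subset _) hO')

theorem sub' (h : OscSys O) {y : Y} {R S T : Set X} {a b c : ℝ} (hR : R ⊆ S ∪ T)
    (hc : a + b ≤ c) (hO : O y R c) (hS : ¬ O y S a) : O y T b := by
  rcases h.sub (h.anti hc (h.mono hR hO)) with h1 | h1
  · exact absurd h1 hS
  · exact h1

theorem fin_part (h : OscSys O) {y : Y} {S : Set X} {t : ℝ} (hO : O y S t) :
    ∃ K : Set X, K.Finite ∧ O y (S ∩ K) t := by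
  obtain ⟨t', htt', hO'⟩ := h.more hO
  obtain ⟨K, hKf, hK⟩ := h.tight y (t' - t) (by linarith)
  refine ⟨K, hKf, h.sub' (R := S) (S := Kᶜ) ?_ (by linarith) hO' hK⟩
  intro x hx
  by_cases hxK : x ∈ K
  · exact Or.inr ⟨hx, hxK⟩
  · exact Or.inl hxK

theorem exists_atom_of_finite (h : OscSys O) {y : Y} {F : Set X} (hF : F.Finite) :
    O y F 0 → ∃ x ∈ F, O y {x} 0 := by
  induction F, hF using Set.Finite.induction_on with
  | empty => intro hO; exact absurd hO (h.not_empty y le_rfl)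
  | @insert a s _ _ ih =>
    intro hO
    by_cases ha : O y {a} 0
    · exact ⟨a, mem_insert _ _, ha⟩
    · obtain ⟨x, hx, hOx⟩ := ih (h.sub' (S := {a}) (by rw [insert_eq]) (by norm_num) hO ha)
      exact ⟨x, mem_insert_of_mem _ hx, hOx⟩

theorem exists_atom (h : OscSys O) {y : Y} {S : Set X} (hO : O y S 0) :
    ∃ x ∈ S, O y {x} 0 := by
  obtain ⟨K, hK, hO'⟩ := h.fin_part hO
  obtain ⟨x, hx, hOx⟩ := h.exists_atom_of_finite (hK.subset inter_subset_right) hO'
  exact ⟨x, hx.1, hOx⟩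

/-- A set that cannot be split and is heavy is concentrated at a point. -/
theorem exists_center (h : OscSys O) {y : Y} {V : Set X} {η : ℝ} (hη : 0 < η)
    (hV : O y V (3 * η))
    (hsplit : ∀ A B : Set X, A ⊆ V → B ⊆ V → Disjoint A B → O y A η → O y B η → False) :
    ∃ x ∈ V, ¬ O y (V \ {x}) η := by
  by_contra hcon
  push Not at hcon
  have h1 : ∀ x ∈ V, ¬ O y {x} η := fun x hx hOx =>
    hsplit {x} (V \ {x}) (singleton_subset_iff.2 hx) sdiff_subset disjoint_sdiff_right hOx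
      (hcon x hx)
  have h2 : ∀ F : Set X, F.Finite → F ⊆ V → ¬ O y F η := by
    intro F hF
    induction F, hF using Set.Finite.induction_on with
    | empty => intro _; exact h.not_empty y hη.le
    | @insert a s _ _ ih =>
      intro hsub hO
      have ha : ¬ O y {a} η := h1 a (hsub (mem_insert _ _))
      have hs : ¬ O y s η := ih ((subset_insert _ _).trans hsub)
      have h3 : ¬ O y (insert a s) (η + η) := fun h3 =>
        hs (h.sub' (S := {a}) (by rw [insert_eq]) le_rfl h3 ha)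
      have h4 : O y (V \ insert a s) η :=
        h.sub' (R := V) (S := insert a s) (by
          intro x hx
          by_cases hx' : x ∈ insert a s
          · exact Or.inl hx'
          · exact Or.inr ⟨hx, hx'⟩) (by linarith) hV h3
      exact hsplit _ _ hsub sdiff_subset disjoint_sdiff_right hO h4
  obtain ⟨K, hK, hO⟩ := h.fin_part (h.anti (show η ≤ 3 * η by linarith) hV)
  exact h2 _ (hK.subset inter_subset_right) inter_subset_left hO

end OscSys

/-- There are `k` pairwise disjoint sets of oscillation more than `η`. -/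
def Big (O : Y → Set X → ℝ → Prop) (η : ℝ) (k : ℕ) (y : Y) : Prop :=
  ∃ l : List (Set X), l.length = k ∧ l.Pairwise Disjoint ∧ ∀ S ∈ l, O y S η

omit [TopologicalSpace X] in
theorem length_le_card (l : List (Set X)) :
    ∀ K : Finset X, l.Pairwise Disjoint → (∀ S ∈ l, ∃ x ∈ K, x ∈ S) → l.length ≤ K.card := by
  classical
  induction l with
  | nil => intro K _ _; simp
  | cons S l ih =>
    intro K hp hK
    rw [List.pairwise_cons] at hp
    obtain ⟨x, hxK, hxS⟩ := hK S List.mem_cons_self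
    have := ih (K.erase x) hp.2 (by
      intro S' hS'
      obtain ⟨x', hx'K, hx'S⟩ := hK S' (List.mem_cons_of_mem _ hS')
      refine ⟨x', Finset.mem_erase.2 ⟨?_, hx'K⟩, hx'S⟩
      rintro rfl
      exact Set.disjoint_left.1 (hp.1 S' hS') hxS hx'S)
    rw [Finset.card_erase_of_mem hxK] at this
    have := Finset.card_pos.2 ⟨x, hxK⟩
    simp only [List.length_cons]
    omega

omit [TopologicalSpace X] in
theorem exists_avoid (x0 : X) (l : List (Set X)) :
    ∀ k, l.length = k + 1 → l.Pairwise Disjoint →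
      ∃ l' : List (Set X), l'.length = k ∧ l'.Pairwise Disjoint ∧ ∀ S ∈ l', S ∈ l ∧ x0 ∉ S := by
  induction l with
  | nil => intro k hk; simp at hk
  | cons S l ih =>
    intro k hk hp
    rw [List.pairwise_cons] at hp
    simp only [List.length_cons, Nat.add_right_cancel_iff] at hk
    by_cases hS : x0 ∈ S
    · exact ⟨l, hk, hp.2, fun S' hS' => ⟨List.mem_cons_of_mem _ hS',
        fun h => Set.disjoint_left.1 (hp.1 S' hS') hS h⟩⟩
    · cases k with
      | zero => exact ⟨[], rfl, List.Pairwise.nil, by simp⟩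
      | succ k =>
        obtain ⟨l', h1, h2, h3⟩ := ih k hk hp.2
        refine ⟨S :: l', by simp [h1], ?_, ?_⟩
        · rw [List.pairwise_cons]
          exact ⟨fun S' hS' => hp.1 S' (h3 S' hS').1, h2⟩
        · intro S' hS'
          rcases List.mem_cons.1 hS' with rfl | hS'
          · exact ⟨List.mem_cons_self, hS⟩
          · exact ⟨List.mem_cons_of_mem _ (h3 S' hS').1, (h3 S' hS').2⟩

namespace OscSys

theorem exists_max_big (h : OscSys O) {y : Y} {η : ℝ} (hη : 0 < η) (h1 : Big O η 1 y) :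
    ∃ k, Big O η (k + 1) y ∧ ¬ Big O η (k + 2) y := by
  by_contra hcon
  push Not at hcon
  have hall : ∀ k, Big O η (k + 1) y := by
    intro k
    induction k with
    | zero => exact h1
    | succ k ih => exact hcon k ih
  obtain ⟨K, hK, hOK⟩ := h.tight y η hη
  obtain ⟨l, hl, hp, hO⟩ := hall hK.toFinset.card
  have := length_le_card l hK.toFinset hp (by
    intro S hS
    by_contra hne
    push Not at hne
    refine hOK (h.mono ?_ (hO S hS))
    intro x hx hxK
    exact hne x (hK.mem_toFinset.2 hxK) hx)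
  omega

theorem fin_part_list (h : OscSys O) {y : Y} {η : ℝ} (l : List (Set X)) :
    (∀ S ∈ l, O y S η) → ∃ K : Set X, K.Finite ∧ ∀ S ∈ l, O y (S ∩ K) η := by
  induction l with
  | nil => intro _; exact ⟨∅, finite_empty, by simp⟩
  | cons S l ih =>
    intro hO
    obtain ⟨K1, hK1, h1⟩ := h.fin_part (hO S List.mem_cons_self)
    obtain ⟨K2, hK2, h2⟩ := ih fun S' hS' => hO S' (List.mem_cons_of_mem _ hS')
    refine ⟨K1 ∪ K2, hK1.union hK2, ?_⟩
    intro S' hS'
    rcases List.mem_cons.1 hS' with rfl | hS'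
    · exact h.mono (inter_subset_inter_right _ subset_union_left) h1
    · exact h.mono (inter_subset_inter_right _ subset_union_right) (h2 S' hS')

end OscSys

/-- Open neighbourhoods of the traces on a finite set, preserving disjointness. -/
theorem exists_nb [T2Space X] {K : Set X} (hK : K.Finite) :
    ∃ nb : Set X → Set X, (∀ S, IsOpen (nb S)) ∧ (∀ S, S ∩ K ⊆ nb S) ∧
      ∀ S S', Disjoint S S' → Disjoint (nb S) (nb S') := by
  obtain ⟨U, hU, hUd⟩ := hK.t2_separation
  refine ⟨fun S => ⋃ x ∈ S ∩ K, U x, fun S => isOpen_biUnion fun x _ => (hU x).2, ?_, ?_⟩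
  · intro S x hx
    exact mem_biUnion hx (hU x).1
  · intro S S' hSS'
    rw [Set.disjoint_left]
    intro z hz hz'
    simp only [mem_iUnion] at hz hz'
    obtain ⟨x, hx, hzx⟩ := hz
    obtain ⟨x', hx', hzx'⟩ := hz'
    have hne : x ≠ x' := by
      rintro rfl
      exact Set.disjoint_left.1 hSS' hx.1 hx'.1
    exact Set.disjoint_left.1 (hUd hx.2 hx'.2 hne) hzx hzx'

namespace OscSys

theorem eventually_list (h : OscSys O) {y : Y} {η : ℝ} (l : List (Set X)) :
    (∀ S ∈ l, IsOpen S ∧ O y S η) → ∀ᶠ z in 𝓝 y, ∀ S ∈ l, O z S η := by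
  induction l with
  | nil => intro _; simp
  | cons S l ih =>
    intro hO
    have h1 := ih fun S' hS' => hO S' (List.mem_cons_of_mem _ hS')
    have h2 : ∀ᶠ z in 𝓝 y, O z S η :=
      (h.lsc S η (hO S List.mem_cons_self).1).mem_nhds (hO S List.mem_cons_self).2
    filter_upwards [h1, h2] with z hz1 hz2
    intro S' hS'
    rcases List.mem_cons.1 hS' with rfl | hS'
    · exact hz2
    · exact hz1 S' hS'

theorem isOpen_big [T2Space X] (h : OscSys O) (η : ℝ) (k : ℕ) : IsOpen {y | Big O η k y} := by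
  rw [isOpen_iff_mem_nhds]
  rintro y ⟨l, hl, hp, hO⟩
  obtain ⟨K, hK, hOK⟩ := h.fin_part_list l hO
  obtain ⟨nb, hnbo, hnb, hnbd⟩ := exists_nb hK
  have := h.eventually_list (y := y) (η := η) (l.map nb) (by
    intro S hS
    obtain ⟨S', hS', rfl⟩ := List.mem_map.1 hS
    exact ⟨hnbo _, h.mono (hnb _) (hOK S' hS')⟩)
  filter_upwards [this] with z hz
  refine ⟨l.map nb, by simp [hl], ?_, hz⟩
  rw [List.pairwise_map]
  exact hp.imp (hnbd _ _)

/-- The local structure near a heavy atom. -/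
theorem local_piece [T2Space X] [RegularSpace Y] (h : OscSys O) {η : ℝ} (hη : 0 < η) (k : ℕ)
    (y0 : Y) (x0 : X) (hx0 : O y0 {x0} (3 * η)) (hk : Big O η (k + 1) y0) :
    ∃ (P : Set Y) (σ : Y → X), IsClosed P ∧ ContinuousOn σ P ∧
      ∀ᶠ p in 𝓝 (y0, x0), O p.1 {p.2} (3 * η) → ¬ Big O η (k + 2) p.1 →
        p.1 ∈ P ∧ σ p.1 = p.2 := by
  classical
  obtain ⟨l, hl, hp, hO⟩ := hk
  obtain ⟨l', hl', hp', hO'⟩ := exists_avoid x0 l k hl hp
  obtain ⟨K, hK, hOK⟩ := h.fin_part_list l' fun S hS => hO S (hO' S hS).1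
  obtain ⟨nb, hnbo, hnb, hnbd⟩ := exists_nb (hK.insert x0)
  set V := nb {x0} with hV
  have hx0V : x0 ∈ V := hnb _ ⟨rfl, mem_insert _ _⟩
  have h1 := h.eventually_list (y := y0) (η := η) (l'.map nb) (by
    intro S hS
    obtain ⟨S', hS', rfl⟩ := List.mem_map.1 hS
    exact ⟨hnbo _, h.mono ((inter_subset_inter_right _ (subset_insert _ _)).trans (hnb _))
      (hOK S' hS')⟩)
  have h2 : ∀ᶠ z in 𝓝 y0, O z V (3 * η) :=
    (h.lsc V _ (hnbo _)).mem_nhds (h.mono (singleton_subset_iff.2 hx0V) hx0)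
  obtain ⟨N, hN, hNc, hNsub⟩ := exists_mem_nhds_isClosed_subset (h1.and h2)
  set P : Set Y := N ∩ {y | Big O η (k + 2) y}ᶜ with hP
  have hcenter : ∀ y ∈ P, ∃ x ∈ V, ¬ O y (V \ {x}) η := by
    intro y hy
    obtain ⟨hy1, hy2⟩ := hNsub hy.1
    refine h.exists_center hη hy2 ?_
    intro A B hA hB hAB hOA hOB
    refine hy.2 ⟨A :: B :: l'.map nb, by simp [hl'], ?_, ?_⟩
    · have hd : ∀ S ∈ l'.map nb, Disjoint V S := by
        intro S hS
        obtain ⟨S', hS', rfl⟩ := List.mem_map.1 hS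
        exact hnbd _ _ (disjoint_singleton_left.2 (hO' S' hS').2)
      rw [List.pairwise_cons, List.pairwise_cons]
      refine ⟨?_, fun S hS => (hd S hS).mono_left hB, ?_⟩
      · intro S hS
        rcases List.mem_cons.1 hS with rfl | hS
        · exact hAB
        · exact (hd S hS).mono_left hA
      · rw [List.pairwise_map]
        exact hp'.imp (hnbd _ _)
    · intro S hS
      rcases List.mem_cons.1 hS with rfl | hS
      · exact hOA
      rcases List.mem_cons.1 hS with rfl | hS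
      · exact hOB
      · exact hy1 S hS
  have : Nonempty X := ⟨x0⟩
  choose! σ hσV hσ using hcenter
  refine ⟨P, σ, hNc.inter (h.isOpen_big η (k + 2)).isClosed_compl, ?_, ?_⟩
  · intro y hy
    refine tendsto_nhds.2 fun W hWo hW => ?_
    have h3 : O y (W ∩ V) η := h.sub' (R := V) (S := V \ {σ y}) (by
      intro x hx
      by_cases hxe : x = σ y
      · exact Or.inr ⟨hxe ▸ hW, hx⟩
      · exact Or.inl ⟨hx, hxe⟩) (by linarith) (hNsub hy.1).2 (hσ y hy)
    have h4 : ∀ᶠ z in 𝓝 y, O z (W ∩ V) η := (h.lsc _ _ (hWo.inter (hnbo _))).mem_nhds h3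
    filter_upwards [nhdsWithin_le_nhds h4, self_mem_nhdsWithin] with z hz hzP
    by_contra hzW
    refine hσ z hzP (h.mono ?_ hz)
    rintro x ⟨hxW, hxV⟩
    refine ⟨hxV, fun hx => hzW ?_⟩
    have hx' : x = σ z := hx
    show σ z ∈ W
    exact hx' ▸ hxW
  · have h5 : N ×ˢ V ∈ 𝓝 (y0, x0) := prod_mem_nhds hN ((hnbo _).mem_nhds hx0V)
    filter_upwards [h5] with p hp hOp hBp
    have hpP : p.1 ∈ P := ⟨hp.1, hBp⟩
    refine ⟨hpP, ?_⟩
    by_contra hne
    refine hσ p.1 hpP (h.mono ?_ (h.anti (by linarith) hOp))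
    rw [singleton_subset_iff]
    exact ⟨hp.2, fun h' => hne (Eq.symm h')⟩

/-- The atoms are covered by countably many graphs of continuous maps on closed sets. -/
theorem pieces [T2Space X] [RegularSpace Y] [SecondCountableTopology X]
    [SecondCountableTopology Y] (h : OscSys O) :
    ∃ PP : Set (Set Y × (Y → X)), PP.Countable ∧ (∀ p ∈ PP, IsClosed p.1 ∧ ContinuousOn p.2 p.1) ∧
      ∀ y x, O y {x} 0 → ∃ p ∈ PP, y ∈ p.1 ∧ p.2 y = x := by
  have key : ∀ m k : ℕ, ∃ PP : Set (Set Y × (Y → X)), PP.Countable ∧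
      (∀ p ∈ PP, IsClosed p.1 ∧ ContinuousOn p.2 p.1) ∧
      ∀ y x, O y {x} (3 * (1 / ((m : ℝ) + 1))) → Big O (1 / ((m : ℝ) + 1)) (k + 1) y →
        ¬ Big O (1 / ((m : ℝ) + 1)) (k + 2) y → ∃ p ∈ PP, y ∈ p.1 ∧ p.2 y = x := by
    intro m k
    set η : ℝ := 1 / ((m : ℝ) + 1) with hη
    have hηpos : 0 < η := Nat.one_div_pos_of_nat
    let R : Set (Y × X) := {p | O p.1 {p.2} (3 * η) ∧ Big O η (k + 1) p.1 ∧
      ¬ Big O η (k + 2) p.1}
    have h1 : ∀ p : R, ∃ q : Set Y × (Y → X), (IsClosed q.1 ∧ ContinuousOn q.2 q.1) ∧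
        {p' : R | p'.1.1 ∈ q.1 ∧ q.2 p'.1.1 = p'.1.2} ∈ 𝓝 p := by
      intro p
      obtain ⟨P, σ, hPc, hσ, hev⟩ := h.local_piece hηpos k p.1.1 p.1.2 p.2.1 p.2.2.1
      refine ⟨(P, σ), ⟨hPc, hσ⟩, ?_⟩
      have := continuous_subtype_val.tendsto p hev
      filter_upwards [this] with p' hp'
      exact hp' p'.2.1 p'.2.2.2
    choose q hq1 hq2 using h1
    obtain ⟨t, htc, ht⟩ := TopologicalSpace.countable_cover_nhds hq2
    refine ⟨q '' t, htc.image _, ?_, ?_⟩
    · rintro _ ⟨p, -, rfl⟩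
      exact hq1 p
    · intro y x a b c
      have : (⟨(y, x), a, b, c⟩ : R) ∈ ⋃ p ∈ t,
          {p' : R | p'.1.1 ∈ (q p).1 ∧ (q p).2 p'.1.1 = p'.1.2} := ht ▸ mem_univ _
      simp only [mem_iUnion] at this
      obtain ⟨p, hp, hp'⟩ := this
      exact ⟨q p, mem_image_of_mem _ hp, hp'⟩
  choose PP h1 h2 h3 using key
  refine ⟨⋃ m, ⋃ k, PP m k, countable_iUnion fun m => countable_iUnion fun k => h1 m k, ?_, ?_⟩
  · intro p hp
    simp only [mem_iUnion] at hp
    obtain ⟨m, k, hp⟩ := hp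
    exact h2 m k p hp
  · intro y x hO
    obtain ⟨t, ht, hOt⟩ := h.more hO
    obtain ⟨m, hm⟩ := exists_nat_one_div_lt (show 0 < t / 3 by linarith)
    have hηpos : 0 < 1 / ((m : ℝ) + 1) := Nat.one_div_pos_of_nat
    have hO3 : O y {x} (3 * (1 / ((m : ℝ) + 1))) := h.anti (by linarith) hOt
    obtain ⟨k, hk1, hk2⟩ := h.exists_max_big (y := y) hηpos ⟨[{x}], rfl, List.pairwise_singleton _ _,
      by
        intro S hS
        rw [List.mem_singleton] at hS
        subst hS
        exact h.anti (by linarith) hO3⟩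
    obtain ⟨p, hp, hp'⟩ := h3 m k y x hO3 hk1 hk2
    exact ⟨p, mem_iUnion.2 ⟨m, mem_iUnion.2 ⟨k, hp⟩⟩, hp'⟩

end OscSys

end Pool.Agent.Lib.MP_e6a955_gt
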