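import Mathlib
import Pool.Agent.Lib.MP_e6a955_gt.Dim
import Pool.Agent.Lib.MP_e6a955_gt.Osc

set_option autoImplicit false

/-!
The oscillation system of a continuous map between products of lines on a compact box, and the
dimension inequality for second countable spaces.
-/

namespace Pool.Agent.Lib.MP_e6a955_gt

open Set Topology Filter TopologicalSpace

/-- The box with radii `r`. -/
def box {X : Type*} (r : X → ℝ) : Set (X → ℝ) := {f | ∀ x, |f x| ≤ r x}

theorem isCompact_box {X : Type*} (r : X → ℝ) : IsCompact (box r) := by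
  have : box r = Set.pi univ fun x => Icc (-r x) (r x) := by
    ext f
    simp only [box, mem_ofPred_eq, Set.mem_pi, mem_univ, forall_true_left, mem_Icc, abs_le]
  rw [this]
  exact isCompact_univ_pi fun x => isCompact_Icc

/-- A family of continuous functions that is a rational vector space with enough bumps. -/
structure Rich {X : Type*} [TopologicalSpace X] (E : Set (X → ℝ)) : Prop where
  cont : ∀ f ∈ E, Continuous f
  zero : (0 : X → ℝ) ∈ E
  add : ∀ f ∈ E, ∀ g ∈ E, f + g ∈ E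
  smul : ∀ (q : ℚ), ∀ f ∈ E, (q : ℝ) • f ∈ E
  bump : ∀ x, ∀ W ∈ 𝓝 x, ∃ b ∈ E, b x = 1 ∧ (∀ z, 0 ≤ b z ∧ b z ≤ 1) ∧ ∀ z, z ∉ W → b z = 0

/-- The oscillation of the coordinate `y` of `φ` on the box along `S` exceeds `t`. -/
def osc {X Y : Type*} (φ : (X → ℝ) → (Y → ℝ)) (r : X → ℝ) (y : Y) (S : Set X) (t : ℝ) : Prop :=
  ∃ f ∈ box r, ∃ g ∈ box r, (∀ x, x ∉ S → f x = g x) ∧ t < |φ f y - φ g y|

variable {X Y : Type*} [TopologicalSpace X] [TopologicalSpace Y]

theorem Rich.sum_mem {E : Set (X → ℝ)} (hE : Rich E) (K : Finset X) (F : X → X → ℝ)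
    (hF : ∀ x ∈ K, F x ∈ E) : ∑ x ∈ K, F x ∈ E :=
  Finset.sum_induction F (· ∈ E) (fun a b ha hb => hE.add a ha b hb) hE.zero hF

theorem exists_rat_mem {a ρ : ℝ} (hρ : 0 < ρ) (ha : |a| ≤ ρ) {t : Set ℝ} (ht : t ∈ 𝓝 a) :
    ∃ q : ℚ, (q : ℝ) ∈ t ∧ |(q : ℝ)| < ρ := by
  obtain ⟨u, hut, huo, hau⟩ := mem_nhds_iff.1 ht
  have h1 : a ∈ closure (Ioo (-ρ) ρ) := by
    rw [closure_Ioo (by linarith)]
    exact abs_le.1 ha
  have h2 : (u ∩ Ioo (-ρ) ρ).Nonempty := mem_closure_iff.1 h1 u huo hau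
  obtain ⟨q, hq⟩ := Rat.denseRange_cast.exists_mem_open (huo.inter isOpen_Ioo) h2
  exact ⟨q, hut hq.1, abs_lt.2 hq.2⟩

/-- Approximation of pairs that agree off an open set by pairs from a rich family. -/
theorem Rich.approx [T2Space X] {E : Set (X → ℝ)} (hE : Rich E) {r : X → ℝ}
    (hr : ∀ x, 0 < r x) (hlsc : ∀ x c, c < r x → ∀ᶠ z in 𝓝 x, c < r z) {V : Set X}
    (hV : IsOpen V) {f g : X → ℝ} (hf : f ∈ box r) (hg : g ∈ box r)
    (hfg : ∀ x, x ∉ V → f x = g x) {A B : Set (X → ℝ)} (hA : A ∈ 𝓝 f) (hB : B ∈ 𝓝 g) :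
    ∃ f' ∈ E, ∃ g' ∈ E, f' ∈ box r ∧ g' ∈ box r ∧ (∀ x, x ∉ V → f' x = g' x) ∧
      f' ∈ A ∧ g' ∈ B := by
  classical
  rw [nhds_pi, Filter.mem_pi'] at hA hB
  obtain ⟨I, t, ht, hIA⟩ := hA
  obtain ⟨J, u, hu, hJB⟩ := hB
  have hpq : ∀ x, ∃ p q : ℚ, (p : ℝ) ∈ t x ∧ (q : ℝ) ∈ u x ∧ |(p : ℝ)| < r x ∧
      |(q : ℝ)| < r x ∧ (x ∉ V → p = q) := by
    intro x
    by_cases hx : x ∈ V
    · obtain ⟨p, hp1, hp2⟩ := exists_rat_mem (hr x) (hf x) (ht x)
      obtain ⟨q, hq1, hq2⟩ := exists_rat_mem (hr x) (hg x) (hu x)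
      exact ⟨p, q, hp1, hq1, hp2, hq2, fun h => absurd hx h⟩
    · have hu' : u x ∈ 𝓝 (f x) := by rw [hfg x hx]; exact hu x
      obtain ⟨p, hp1, hp2⟩ := exists_rat_mem (hr x) (hf x) (inter_mem (ht x) hu')
      exact ⟨p, p, hp1.1, hp1.2, hp2, hp2, fun _ => rfl⟩
  choose p q hp hq hpr hqr hpq using hpq
  set K : Finset X := I ∪ J with hK
  obtain ⟨U, hU, hUd⟩ := K.finite_toSet.t2_separation
  have hb : ∀ x, ∃ b ∈ E, b x = 1 ∧ (∀ z, 0 ≤ b z ∧ b z ≤ 1) ∧
      ∀ z, b z ≠ 0 → z ∈ U x ∧ |(p x : ℝ)| < r z ∧ |(q x : ℝ)| < r z ∧ (x ∈ V → z ∈ V) := by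
    intro x
    have h1 : ∀ᶠ z in 𝓝 x, z ∈ U x := (hU x).2.mem_nhds (hU x).1
    have h2 : ∀ᶠ z in 𝓝 x, x ∈ V → z ∈ V := by
      by_cases hx : x ∈ V
      · filter_upwards [hV.mem_nhds hx] with z hz using fun _ => hz
      · exact Eventually.of_forall fun z h => absurd h hx
    obtain ⟨b, hbE, hb1, hb2, hb3⟩ := hE.bump x _
      (h1.and ((hlsc x _ (hpr x)).and ((hlsc x _ (hqr x)).and h2)))
    exact ⟨b, hbE, hb1, hb2, fun z hz => by_contra fun h => hz (hb3 z h)⟩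
  choose b hbE hb1 hb2 hb3 using hb
  have hval : ∀ (c : X → ℝ) (z : X), ∀ x ∈ K, z ∈ U x →
      (∑ x' ∈ K, c x' • b x') z = c x * b x z := by
    intro c z x hx hz
    rw [Finset.sum_apply, Finset.sum_eq_single_of_mem x hx]
    · simp
    · intro x' hx' hne
      have : b x' z = 0 := by
        by_contra h
        exact Set.disjoint_left.1 (hUd hx' hx hne) (hb3 x' z h).1 hz
      simp [this]
  have hbox : ∀ c : X → ℝ, (∀ x z, b x z ≠ 0 → |c x| < r z) →
      (∑ x' ∈ K, c x' • b x') ∈ box r := by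
    intro c hc z
    by_cases hz : ∃ x ∈ K, b x z ≠ 0
    · obtain ⟨x, hx, hxz⟩ := hz
      rw [hval c z x hx (hb3 x z hxz).1, abs_mul, abs_of_nonneg (hb2 x z).1]
      have := hc x z hxz
      have h1 := hb2 x z
      have h2 := abs_nonneg (c x)
      nlinarith
    · push Not at hz
      rw [Finset.sum_apply, Finset.sum_eq_zero (fun x hx => by simp [hz x hx]), abs_zero]
      exact (hr z).le
  refine ⟨∑ x ∈ K, (p x : ℝ) • b x, hE.sum_mem K _ fun x _ => hE.smul _ _ (hbE x),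
    ∑ x ∈ K, (q x : ℝ) • b x, hE.sum_mem K _ fun x _ => hE.smul _ _ (hbE x),
    hbox _ fun x z h => (hb3 x z h).2.1, hbox _ fun x z h => (hb3 x z h).2.2.1, ?_, ?_, ?_⟩
  · intro z hz
    rw [Finset.sum_apply, Finset.sum_apply]
    refine Finset.sum_congr rfl fun x _ => ?_
    by_cases hx : x ∈ V
    · have : b x z = 0 := by
        by_contra h
        exact hz ((hb3 x z h).2.2.2 hx)
      simp [this]
    · rw [hpq x hx]
  · refine hIA fun x hx => ?_
    rw [hval (fun x => (p x : ℝ)) x x (Finset.mem_union_left _ hx) (hU x).1, hb1, mul_one]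
    exact hp x
  · refine hJB fun x hx => ?_
    rw [hval (fun x => (q x : ℝ)) x x (Finset.mem_union_right _ hx) (hU x).1, hb1, mul_one]
    exact hq x

theorem oscSys_osc [T2Space X] {E : Set (X → ℝ)} (hE : Rich E) {r : X → ℝ}
    (hr : ∀ x, 0 < r x) (hlsc : ∀ x c, c < r x → ∀ᶠ z in 𝓝 x, c < r z)
    {φ : (X → ℝ) → (Y → ℝ)} (hφ : Continuous φ) (hφE : ∀ f ∈ E, Continuous (φ f)) :
    OscSys (osc φ r) where
  mono := by
    rintro y S T t hST ⟨f, hf, g, hg, hfg, ht⟩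
    exact ⟨f, hf, g, hg, fun x hx => hfg x fun h => hx (hST h), ht⟩
  anti := by
    rintro y S t t' htt' ⟨f, hf, g, hg, hfg, ht⟩
    exact ⟨f, hf, g, hg, hfg, lt_of_le_of_lt htt' ht⟩
  sub := by
    classical
    rintro y S T a b ⟨f, hf, g, hg, hfg, ht⟩
    let h : X → ℝ := fun x => if x ∈ S then g x else f x
    have hh : h ∈ box r := by
      intro x
      by_cases hx : x ∈ S
      · simp only [h, hx, if_true]; exact hg x
      · simp only [h, hx, if_false]; exact hf x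
    by_cases h1 : a < |φ f y - φ h y|
    · exact Or.inl ⟨f, hf, h, hh, fun x hx => by simp only [h, hx, if_false], h1⟩
    · refine Or.inr ⟨h, hh, g, hg, fun x hx => ?_, ?_⟩
      · by_cases hxS : x ∈ S
        · simp only [h, hxS, if_true]
        · simp only [h, hxS, if_false]
          exact hfg x fun h' => h'.elim hxS hx
      · have := abs_sub_le (φ f y) (φ h y) (φ g y)
        push Not at h1
        linarith
  tight := by
    intro y ε hε
    have hD : Continuous fun p : (X → ℝ) × (X → ℝ) => |φ p.1 y - φ p.2 y| :=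
      (((continuous_apply y).comp (hφ.comp continuous_fst)).sub
        ((continuous_apply y).comp (hφ.comp continuous_snd))).abs
    have hc : IsCompact ((box r ×ˢ box r) ∩ {p | ε ≤ |φ p.1 y - φ p.2 y|}) :=
      ((isCompact_box r).prod (isCompact_box r)).inter_right (isClosed_le continuous_const hD)
    obtain ⟨K, hK⟩ := hc.elim_finite_subfamily_closed
      (fun x : X => {p : (X → ℝ) × (X → ℝ) | p.1 x = p.2 x})
      (fun x => isClosed_eq ((continuous_apply x).comp continuous_fst)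
        ((continuous_apply x).comp continuous_snd)) (by
        rw [eq_empty_iff_forall_notMem]
        rintro ⟨f, g⟩ ⟨⟨-, h1⟩, h2⟩
        have h3 : f = g := funext fun x => mem_iInter.1 h2 x
        subst h3
        simp only [mem_ofPred_eq, sub_self, abs_zero] at h1
        linarith)
    refine ⟨K, K.finite_toSet, ?_⟩
    rintro ⟨f, hf, g, hg, hfg, ht⟩
    refine eq_empty_iff_forall_notMem.1 hK (f, g) ⟨⟨⟨hf, hg⟩, ht.le⟩, ?_⟩
    simp only [mem_iInter]
    intro x hx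
    exact hfg x fun h => h hx
  more := by
    rintro y S t ⟨f, hf, g, hg, hfg, ht⟩
    obtain ⟨t', h1, h2⟩ := exists_between ht
    exact ⟨t', h1, f, hf, g, hg, hfg, h2⟩
  lsc := by
    intro V t hV
    rw [isOpen_iff_mem_nhds]
    rintro y ⟨f, hf, g, hg, hfg, ht⟩
    have hD : Continuous fun p : (X → ℝ) × (X → ℝ) => |φ p.1 y - φ p.2 y| :=
      (((continuous_apply y).comp (hφ.comp continuous_fst)).sub
        ((continuous_apply y).comp (hφ.comp continuous_snd))).abs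
    have h1 : {p : (X → ℝ) × (X → ℝ) | t < |φ p.1 y - φ p.2 y|} ∈ 𝓝 (f, g) :=
      (isOpen_lt continuous_const hD).mem_nhds ht
    obtain ⟨A, hA, B, hB, hAB⟩ := mem_nhds_prod_iff.1 h1
    obtain ⟨f', hf'E, g', hg'E, hf', hg', hfg', hfA, hgB⟩ := hE.approx hr hlsc hV hf hg hfg hA hB
    have h2 : t < |φ f' y - φ g' y| := hAB (show (f', g') ∈ A ×ˢ B from ⟨hfA, hgB⟩)
    have h3 : {z | t < |φ f' z - φ g' z|} ∈ 𝓝 y :=
      (isOpen_lt continuous_const (((hφE f' hf'E).sub (hφE g' hg'E)).abs)).mem_nhds h2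
    filter_upwards [h3] with z hz
    exact ⟨f', hf', g', hg', hfg', hz⟩

/-- The radius function of the image of the unit box. -/
theorem exists_radius [T2Space Y] {E' : Set (Y → ℝ)} (hE' : Rich E')
    {ψ : (Y → ℝ) → (X → ℝ)} (hψ : Continuous ψ) (hψE : ∀ u ∈ E', Continuous (ψ u)) :
    ∃ r : X → ℝ, (∀ x, 0 < r x) ∧ (∀ x c, c < r x → ∀ᶠ z in 𝓝 x, c < r z) ∧
      ∀ u ∈ box (fun _ : Y => (1 : ℝ)), ψ u ∈ box r := by
  have hc : ∀ x, Continuous fun u => |ψ u x| := fun x => ((continuous_apply x).comp hψ).abs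
  have hbdd : ∀ x, BddAbove ((fun u => |ψ u x|) '' box (fun _ : Y => (1 : ℝ))) := fun x =>
    (isCompact_box _).bddAbove_image (hc x).continuousOn
  have h0 : (0 : Y → ℝ) ∈ box (fun _ : Y => (1 : ℝ)) := fun y => by simp
  have hle : ∀ x, ∀ u ∈ box (fun _ : Y => (1 : ℝ)),
      |ψ u x| ≤ sSup ((fun u => |ψ u x|) '' box (fun _ : Y => (1 : ℝ))) :=
    fun x u hu => le_csSup (hbdd x) (mem_image_of_mem _ hu)
  refine ⟨fun x => sSup ((fun u => |ψ u x|) '' box (fun _ : Y => (1 : ℝ))) + 1, ?_, ?_, ?_⟩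
  · intro x
    have := hle x 0 h0
    have := abs_nonneg (ψ 0 x)
    linarith
  · intro x c hcx
    obtain ⟨_, ⟨u, hu, rfl⟩, hlt⟩ := exists_lt_of_lt_csSup
      (s := (fun u => |ψ u x|) '' box (fun _ : Y => (1 : ℝ))) (b := c - 1)
      ⟨_, mem_image_of_mem _ h0⟩ (by linarith)
    have h1 : {u' | c - 1 < |ψ u' x|} ∈ 𝓝 u := (isOpen_lt continuous_const (hc x)).mem_nhds hlt
    obtain ⟨u', hu'E, -, -, hu', -, -, hu'A, -⟩ := hE'.approx (r := fun _ => 1)
      (fun _ => one_pos) (fun _ _ h => Eventually.of_forall fun _ => h) isOpen_univ hu hu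
      (fun _ _ => rfl) h1 h1
    have h2 : {z | c - 1 < |ψ u' z|} ∈ 𝓝 x :=
      (isOpen_lt continuous_const (hψE u' hu'E).abs).mem_nhds hu'A
    filter_upwards [h2] with z hz
    have := hle z u' hu'
    have hz' : c - 1 < |ψ u' z| := hz
    linarith
  · intro u hu x
    have := hle x u hu
    show |ψ u x| ≤ _ + 1
    linarith

/-- The second countable case: `Y` is a countable union of closed sets each of which embeds in
`X`, hence the dimension inequality. -/
theorem dimLE_of_rich [MetrizableSpace X] [MetrizableSpace Y] [SecondCountableTopology X]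
    [SecondCountableTopology Y] (φ : (X → ℝ) ≃ₜ (Y → ℝ)) {E : Set (X → ℝ)} {E' : Set (Y → ℝ)}
    (hE : Rich E) (hE' : Rich E') (h1 : ∀ f ∈ E, φ f ∈ E') (h2 : ∀ u ∈ E', φ.symm u ∈ E)
    {n : ℕ} (hX : DimLE n (univ : Set X)) : DimLE n (univ : Set Y) := by
  classical
  obtain ⟨r, hr, hlsc, hbox⟩ := exists_radius hE' φ.symm.continuous
    fun u hu => hE.cont _ (h2 u hu)
  have hO := oscSys_osc hE hr hlsc φ.continuous fun f hf => hE'.cont _ (h1 f hf)
  have hO' := oscSys_osc hE' (r := fun _ => 1) (fun _ => one_pos)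
    (fun _ _ h => Eventually.of_forall fun _ => h) φ.symm.continuous
    fun u hu => hE.cont _ (h2 u hu)
  obtain ⟨PP, hPc, hP, hPcov⟩ := hO.pieces
  obtain ⟨QQ, hQc, hQ, hQcov⟩ := hO'.pieces
  refine dimLE_of_countable
    (image2 (fun p q => {y ∈ p.1 ∩ p.2 ⁻¹' q.1 | q.2 (p.2 y) = y}) PP QQ)
    (hPc.image2 hQc _) ?_ ?_ ?_
  · rintro _ ⟨p, hp, q, hq, rfl⟩
    refine IsClosed.isClosed_eq
      ((hP p hp).2.preimage_isClosed_of_isClosed (hP p hp).1 (hQ q hq).1) ?_ continuousOn_id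
    exact (hQ q hq).2.comp ((hP p hp).2.mono inter_subset_left) fun y hy => hy.2
  · rintro _ ⟨p, hp, q, hq, rfl⟩
    set Z : Set Y := {y ∈ p.1 ∩ p.2 ⁻¹' q.1 | q.2 (p.2 y) = y} with hZ
    let σ : Z → q.1 := fun y => ⟨p.2 y, y.2.1.2⟩
    have hσ : Continuous σ := by
      refine Continuous.subtype_mk ?_ _
      exact continuousOn_iff_continuous_domRestrict.1 ((hP p hp).2.mono fun y hy => hy.1.1)
    let τ : q.1 → Y := fun x => q.2 x
    have hτ : Continuous τ := continuousOn_iff_continuous_domRestrict.1 (hQ q hq).2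
    have hστ : τ ∘ σ = Subtype.val := funext fun y => y.2.2
    have hind : IsInducing σ := IsInducing.of_comp hσ hτ (hστ ▸ IsInducing.subtypeVal)
    have hind' : IsInducing (Subtype.val ∘ σ) := IsInducing.subtypeVal.comp hind
    have h3 : DimLE n (univ : Set Z) := DimLE.of_image hind' (hX.subset (subset_univ _))
    have h4 := h3.image IsInducing.subtypeVal
    rwa [Subtype.coe_image_univ] at h4
  · intro y
    have h0 : (0 : Y → ℝ) ∈ box (fun _ : Y => (1 : ℝ)) := fun y => by simp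
    have hv : (Pi.single y 1 : Y → ℝ) ∈ box (fun _ : Y => (1 : ℝ)) := fun z => by
      by_cases hz : z = y
      · subst hz; simp
      · simp [hz]
    have h3 : osc φ r y {x | φ.symm 0 x ≠ φ.symm (Pi.single y 1) x} 0 :=
      ⟨_, hbox _ h0, _, hbox _ hv, fun x hx => not_not.1 hx, by simp⟩
    obtain ⟨x, hx, hOx⟩ := hO.exists_atom h3
    have h4 : osc φ.symm (fun _ => 1) x {y} 0 :=
      ⟨_, h0, _, hv, fun z hz => by
        have hz' : z ≠ y := hz
        simp [hz'], abs_pos.2 (sub_ne_zero.2 hx)⟩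
    obtain ⟨p, hp, hyp, hpy⟩ := hPcov y x hOx
    obtain ⟨q, hq, hxq, hqx⟩ := hQcov x y h4
    refine ⟨_, mem_image2_of_mem hp hq, ⟨hyp, ?_⟩, ?_⟩
    · show p.2 y ∈ q.1
      rw [hpy]; exact hxq
    · rw [hpy, hqx]

end Pool.Agent.Lib.MP_e6a955_gt
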