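import Mathlib
import Pool.Agent.Lib.MP_e6a955_gt.Box

set_option autoImplicit false

/-!
The second countable quotient and the compactification attached to a countable lattice of
functions.
-/

namespace Pool.Agent.Lib.MP_e6a955_gt

open Set Topology Filter TopologicalSpace

/-- A rational vector lattice of functions containing the rational constants. -/
structure Lat {X : Type*} (E : Set (X → ℝ)) : Prop where
  const : ∀ q : ℚ, (fun _ => (q : ℝ)) ∈ E
  smul : ∀ q : ℚ, ∀ f ∈ E, (q : ℝ) • f ∈ E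
  add : ∀ f ∈ E, ∀ g ∈ E, f + g ∈ E
  sup : ∀ f ∈ E, ∀ g ∈ E, f ⊔ g ∈ E

/-- The members of `E` with values in the unit interval. -/
abbrev Uni {X : Type*} (E : Set (X → ℝ)) : Type _ := {f : X → ℝ // f ∈ E ∧ ∀ x, 0 ≤ f x ∧ f x ≤ 1}

/-- Evaluation map. -/
def ev {X : Type*} (E : Set (X → ℝ)) (x : X) : Uni E → ℝ := fun b => b.1 x

/-- The image of the evaluation map. -/
abbrev Quo {X : Type*} (E : Set (X → ℝ)) : Type _ := ↥(range (ev E))

/-- The projection onto the image. -/
def proj {X : Type*} (E : Set (X → ℝ)) (x : X) : Quo E := ⟨ev E x, mem_range_self x⟩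

/-- A section of the projection. -/
noncomputable def sec {X : Type*} (E : Set (X → ℝ)) (p : Quo E) : X := rangeSplitting (ev E) p

/-- Truncated affine function. -/
noncomputable def trunc (a b : ℚ) (s : ℝ) : ℝ := min 1 (max 0 ((a : ℝ) * s + b))

theorem continuous_trunc (a b : ℚ) : Continuous (trunc a b) := by
  unfold trunc
  fun_prop

theorem trunc_bound (a b : ℚ) (s : ℝ) : 0 ≤ trunc a b s ∧ trunc a b s ≤ 1 :=
  ⟨le_min zero_le_one (le_max_left _ _), min_le_left _ _⟩

theorem trunc_pos {a b : ℚ} {s : ℝ} (h : trunc a b s ≠ 0) : 0 < (a : ℝ) * s + b := by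
  by_contra hle
  push Not at hle
  exact h (by simp [trunc, max_eq_left hle])

theorem exists_lo {c d : ℝ} (h : c < d) :
    ∃ a b : ℚ, trunc a b d = 1 ∧ ∀ s, trunc a b s ≠ 0 → c < s := by
  obtain ⟨q, hcq, hqd⟩ := exists_rat_btwn h
  obtain ⟨N, hN⟩ := exists_nat_gt (1 / (d - q))
  have hpos : 0 < d - q := by linarith
  have hN0 : (0 : ℝ) < N := lt_trans (by positivity) hN
  have h1 : 1 < (N : ℝ) * (d - q) := by rwa [div_lt_iff₀ hpos] at hN
  refine ⟨N, -N * q, ?_, fun s hs => ?_⟩
  · unfold trunc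
    refine min_eq_left (le_max_of_le_right ?_)
    push_cast
    linarith
  · have h2 := trunc_pos hs
    push_cast at h2
    have h3 : 0 < (N : ℝ) * (s - q) := by linarith
    have h4 := (mul_pos_iff_of_pos_left hN0).1 h3
    linarith

theorem exists_hi {c d : ℝ} (h : d < c) :
    ∃ a b : ℚ, trunc a b d = 1 ∧ ∀ s, trunc a b s ≠ 0 → s < c := by
  obtain ⟨a, b, h1, h2⟩ := exists_lo (neg_lt_neg h)
  have key : ∀ s, trunc (-a) b s = trunc a b (-s) := by
    intro s
    unfold trunc
    push_cast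
    ring_nf
  refine ⟨-a, b, by rw [key, h1], fun s hs => ?_⟩
  rw [key] at hs
  have := h2 _ hs
  linarith

variable {X Y : Type*} {E : Set (X → ℝ)}

theorem Lat.inf (hE : Lat E) {f g : X → ℝ} (hf : f ∈ E) (hg : g ∈ E) : f ⊓ g ∈ E := by
  have := hE.smul (-1) _ (hE.sup _ (hE.smul (-1) f hf) _ (hE.smul (-1) g hg))
  convert this using 1
  funext x
  simp only [Pi.inf_apply, Pi.smul_apply, Pi.sup_apply, smul_eq_mul]
  push_cast
  rcases le_total (f x) (g x) with h | h
  · rw [min_eq_left h, max_eq_left (by linarith)]; ring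
  · rw [min_eq_right h, max_eq_right (by linarith)]; ring

theorem Lat.trunc_mem (hE : Lat E) (a b : ℚ) {f : X → ℝ} (hf : f ∈ E) :
    (fun x => trunc a b (f x)) ∈ E := by
  have := hE.inf (hE.const 1) (hE.sup _ (hE.const 0) _ (hE.add _ (hE.smul a f hf) _ (hE.const b)))
  convert this using 1
  funext x
  simp [trunc]

/-- The truncation of a member of `E` as a member of `Uni E`. -/
noncomputable def Lat.tr (hE : Lat E) (a b : ℚ) {f : X → ℝ} (hf : f ∈ E) : Uni E :=
  ⟨fun x => trunc a b (f x), hE.trunc_mem a b hf, fun _ => trunc_bound _ _ _⟩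

theorem ev_sec (p : Quo E) : ev E (sec E p) = p := apply_rangeSplitting _ _

theorem proj_sec (p : Quo E) : proj E (sec E p) = p := Subtype.ext (ev_sec p)

theorem Lat.eq_of_ev_eq (hE : Lat E) {f : X → ℝ} (hf : f ∈ E) {x x' : X}
    (h : ev E x = ev E x') : f x = f x' := by
  by_contra hne
  rcases lt_or_gt_of_ne hne with hlt | hlt
  · obtain ⟨a, b, h1, h2⟩ := exists_lo hlt
    have h3 : trunc a b (f x) = trunc a b (f x') := congrFun h (hE.tr a b hf)
    exact lt_irrefl _ (h2 (f x) (by rw [h3, h1]; exact one_ne_zero))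
  · obtain ⟨a, b, h1, h2⟩ := exists_lo hlt
    have h3 : trunc a b (f x) = trunc a b (f x') := congrFun h (hE.tr a b hf)
    exact lt_irrefl _ (h2 (f x') (by rw [← h3, h1]; exact one_ne_zero))

theorem Lat.continuous_sec (hE : Lat E) {f : X → ℝ} (hf : f ∈ E) : Continuous (f ∘ sec E) := by
  have hc : ∀ b : Uni E, Continuous fun p : Quo E => p.1 b := fun b =>
    (continuous_apply b).comp continuous_subtype_val
  have hval : ∀ (a b : ℚ) (p : Quo E), p.1 (hE.tr a b hf) = trunc a b (f (sec E p)) := by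
    intro a b p
    rw [← ev_sec p]
    rfl
  rw [continuous_iff_continuousAt]
  intro p
  refine tendsto_order.2 ⟨fun c hc' => ?_, fun c hc' => ?_⟩
  · obtain ⟨a, b, h1, h2⟩ := exists_lo hc'
    have : ∀ᶠ p' in 𝓝 p, p'.1 (hE.tr a b hf) ≠ 0 :=
      (hc _).continuousAt.eventually_ne (by rw [hval]; exact h1 ▸ one_ne_zero)
    filter_upwards [this] with p' hp'
    rw [hval] at hp'
    exact h2 _ hp'
  · obtain ⟨a, b, h1, h2⟩ := exists_hi hc'
    have : ∀ᶠ p' in 𝓝 p, p'.1 (hE.tr a b hf) ≠ 0 :=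
      (hc _).continuousAt.eventually_ne (by rw [hval]; exact h1 ▸ one_ne_zero)
    filter_upwards [this] with p' hp'
    rw [hval] at hp'
    exact h2 _ hp'

theorem Lat.comp_sec_proj (hE : Lat E) {g : X → ℝ} (hg : g ∈ closure E) :
    (g ∘ sec E) ∘ proj E = g := by
  funext x
  have hcl : IsClosed {g : X → ℝ | g (sec E (proj E x)) = g x} :=
    isClosed_eq (continuous_apply _) (continuous_apply _)
  exact closure_minimal (fun f hf => hE.eq_of_ev_eq hf (ev_sec (proj E x))) hcl hg

/-- Bumps on the compactification. -/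
theorem Lat.base (hE : Lat E) {p : Uni E → ℝ} (hp : p ∈ closure (range (ev E)))
    {W : Set (Uni E → ℝ)} (hW : W ∈ 𝓝 p) :
    ∃ b : Uni E, p b = 1 ∧ ∀ p' ∈ closure (range (ev E)), p' b ≠ 0 → p' ∈ W := by
  have h1E : (fun _ : X => (1 : ℝ)) ∈ E := by simpa using hE.const 1
  let F : Filter (Uni E → ℝ) :=
    { sets := {W | ∃ b : Uni E, p b = 1 ∧ ∀ p' ∈ closure (range (ev E)), p' b ≠ 0 → p' ∈ W}
      univ_sets := by
        refine ⟨⟨fun _ => 1, h1E, fun _ => ⟨zero_le_one, le_rfl⟩⟩, ?_, fun _ _ _ => mem_univ _⟩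
        refine closure_minimal (s := range (ev E))
          (t := {p' : Uni E → ℝ | p' ⟨fun _ => 1, h1E, fun _ => ⟨zero_le_one, le_rfl⟩⟩ = 1})
          ?_ (isClosed_eq (continuous_apply _) continuous_const) hp
        rintro _ ⟨x, rfl⟩
        rfl
      sets_of_superset := by
        rintro A B ⟨b, hb1, hb2⟩ hAB
        exact ⟨b, hb1, fun p' hp' h => hAB (hb2 p' hp' h)⟩
      inter_sets := by
        rintro A B ⟨a, ha1, ha2⟩ ⟨b, hb1, hb2⟩
        let c : Uni E := ⟨a.1 ⊓ b.1, hE.inf a.2.1 b.2.1, fun x =>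
          ⟨le_min (a.2.2 x).1 (b.2.2 x).1, min_le_of_left_le (a.2.2 x).2⟩⟩
        have hc : ∀ p' ∈ closure (range (ev E)), p' c = min (p' a) (p' b) ∧ 0 ≤ p' a ∧
            0 ≤ p' b := by
          refine closure_minimal (s := range (ev E))
            (t := {p' : Uni E → ℝ | p' c = min (p' a) (p' b) ∧ 0 ≤ p' a ∧ 0 ≤ p' b}) ?_ ?_
          · rintro _ ⟨x, rfl⟩
            exact ⟨rfl, (a.2.2 x).1, (b.2.2 x).1⟩
          · exact (isClosed_eq (continuous_apply c)
              ((continuous_apply a).min (continuous_apply b))).inter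
              ((isClosed_le continuous_const (continuous_apply a)).inter
                (isClosed_le continuous_const (continuous_apply b)))
        refine ⟨c, by rw [(hc p hp).1, ha1, hb1, min_self], fun p' hp' h => ?_⟩
        obtain ⟨h1, h2, h3⟩ := hc p' hp'
        rw [h1] at h
        refine ⟨ha2 p' hp' fun h' => h ?_, hb2 p' hp' fun h' => h ?_⟩
        · rw [h']; exact min_eq_left h3
        · rw [h']; exact min_eq_right h2 }
  have hval : ∀ (a : Uni E) (α β : ℚ), ∀ p' ∈ closure (range (ev E)),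
      p' (hE.tr α β a.2.1) = trunc α β (p' a) := by
    intro a α β
    refine closure_minimal (s := range (ev E))
      (t := {p' : Uni E → ℝ | p' (hE.tr α β a.2.1) = trunc α β (p' a)}) ?_
      (isClosed_eq (continuous_apply _) ((continuous_trunc α β).comp (continuous_apply _)))
    rintro _ ⟨x, rfl⟩
    rfl
  have hF : F ≤ 𝓝 p := by
    refine tendsto_id'.1 (tendsto_pi_nhds.2 fun a => tendsto_order.2 ⟨fun c hc => ?_,
      fun c hc => ?_⟩)
    · obtain ⟨α, β, h1, h2⟩ := exists_lo hc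
      exact ⟨hE.tr α β a.2.1, by rw [hval a α β p hp, h1], fun p' hp' h => by
        rw [hval a α β p' hp'] at h; exact h2 _ h⟩
    · obtain ⟨α, β, h1, h2⟩ := exists_hi hc
      exact ⟨hE.tr α β a.2.1, by rw [hval a α β p hp, h1], fun p' hp' h => by
        rw [hval a α β p' hp'] at h; exact h2 _ h⟩
  exact hF hW

/-- The members of `E` seen on the quotient. -/
def hat (E : Set (X → ℝ)) : Set (Quo E → ℝ) := {h | h ∘ proj E ∈ E}

theorem comp_proj_sec (h : Quo E → ℝ) : (h ∘ proj E) ∘ sec E = h :=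
  funext fun p => congrArg h (proj_sec p)

theorem Lat.rich (hE : Lat E) : Rich (hat E) where
  cont := fun h hh => comp_proj_sec h ▸ hE.continuous_sec hh
  zero := by
    have := hE.const 0
    rw [Rat.cast_zero] at this
    exact this
  add := fun f hf g hg => hE.add _ hf _ hg
  smul := fun q f hf => hE.smul q _ hf
  bump := by
    intro p W hW
    obtain ⟨W', hW', hWW⟩ := (mem_nhds_subtype _ _ _).1 hW
    obtain ⟨b, hb1, hb2⟩ := hE.base (subset_closure p.2) hW'
    refine ⟨fun p' => p'.1 b, b.2.1, hb1, ?_, fun z hz => ?_⟩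
    · rintro ⟨_, x, rfl⟩
      exact b.2.2 x
    · by_contra h
      exact hz (hWW (hb2 z.1 (subset_closure z.2) h))

theorem Rich.dense {T : Type*} [TopologicalSpace T] [T2Space T] {D : Set (T → ℝ)}
    (hD : Rich D) : Dense D := by
  classical
  intro h
  rw [mem_closure_iff_nhds]
  intro A hA
  rw [nhds_pi, Filter.mem_pi'] at hA
  obtain ⟨I, t, ht, hIA⟩ := hA
  let h' : T → ℝ := fun p => if p ∈ I then h p else 0
  have hs : 0 ≤ ∑ p ∈ I, |h p| := Finset.sum_nonneg fun p _ => abs_nonneg _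
  have hb : h' ∈ box fun _ => ∑ p ∈ I, |h p| + 1 := by
    intro p
    by_cases hp : p ∈ I
    · simp only [h', hp, if_true]
      have := Finset.single_le_sum (f := fun p => |h p|) (fun p _ => abs_nonneg _) hp
      linarith
    · simp only [h', hp, if_false, abs_zero]
      linarith
  have hn : Set.pi (↑I) t ∈ 𝓝 h' := set_pi_mem_nhds I.finite_toSet fun p hp => by
    have hp' : p ∈ I := hp
    simp only [h', hp', if_true]
    exact ht p
  obtain ⟨f', hf', -, -, -, -, -, hfA, -⟩ := hD.approx (r := fun _ => ∑ p ∈ I, |h p| + 1)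
    (fun _ => by linarith) (fun _ _ h => Eventually.of_forall fun _ => h) isOpen_univ hb hb
    (fun _ _ => rfl) hn hn
  exact ⟨f', hIA hfA, hf'⟩

theorem Lat.comp_proj_mem_closure (hE : Lat E) (h : Quo E → ℝ) : h ∘ proj E ∈ closure E :=
  map_mem_closure (f := fun h : Quo E → ℝ => h ∘ proj E)
    (continuous_pi fun _ => continuous_apply _) (hE.rich.dense h) fun _ hh => hh

/-- The induced homeomorphism between the products over the quotients. -/
noncomputable def indHomeo {E' : Set (Y → ℝ)} (hE : Lat E) (hE' : Lat E')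
    (φ : (X → ℝ) ≃ₜ (Y → ℝ)) (h1 : ∀ f ∈ E, φ f ∈ E') (h2 : ∀ u ∈ E', φ.symm u ∈ E) :
    (Quo E → ℝ) ≃ₜ (Quo E' → ℝ) where
  toFun h := φ (h ∘ proj E) ∘ sec E'
  invFun u := φ.symm (u ∘ proj E') ∘ sec E
  left_inv h := by
    show φ.symm ((φ (h ∘ proj E) ∘ sec E') ∘ proj E') ∘ sec E = h
    rw [hE'.comp_sec_proj (map_mem_closure φ.continuous (hE.comp_proj_mem_closure h) h1),
      φ.symm_apply_apply, comp_proj_sec]
  right_inv u := by
    show φ ((φ.symm (u ∘ proj E') ∘ sec E) ∘ proj E) ∘ sec E' = u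
    rw [hE.comp_sec_proj (map_mem_closure φ.symm.continuous (hE'.comp_proj_mem_closure u) h2),
      φ.apply_symm_apply, comp_proj_sec]
  continuous_toFun := continuous_pi fun _ => (continuous_apply _).comp
    (φ.continuous.comp (continuous_pi fun _ => continuous_apply _))
  continuous_invFun := continuous_pi fun _ => (continuous_apply _).comp
    (φ.symm.continuous.comp (continuous_pi fun _ => continuous_apply _))

/-- Witnesses for the dimension bound are present in `E`. -/
def Wit (n : ℕ) (E : Set (X → ℝ)) : Prop :=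
  ∀ t : Set (X → ℝ), t.Finite → t ⊆ E → (∀ x, ∃ b ∈ t, 1 / 2 < b x) →
    ∃ (m : ℕ) (g : Fin m → X → ℝ), (∀ j, g j ∈ E) ∧ (∀ j x, 0 ≤ g j x ∧ g j x ≤ 1) ∧
      (∀ x, ∑ j, g j x = 1) ∧ (∀ j, ∃ b ∈ t, ∀ x, g j x ≠ 0 → 1 / 2 ≤ b x) ∧
      ∀ s : Finset (Fin m), s.card = n + 2 → ∀ x, ∃ j ∈ s, g j x = 0

theorem isCompact_closure_ev : IsCompact (closure (range (ev E))) := by
  refine (isCompact_univ_pi fun _ : Uni E => (isCompact_Icc (a := (0 : ℝ)) (b := 1))).of_isClosed_subset
    isClosed_closure (closure_minimal ?_ (isClosed_set_pi fun _ _ => isClosed_Icc))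
  rintro _ ⟨x, rfl⟩ b _
  exact b.2.2 x

theorem Lat.dimLE_closure (hE : Lat E) {n : ℕ} (hW : Wit n E) :
    DimLE n (closure (range (ev E))) := by
  intro ι _ U hUo hUc
  have h1 : ∀ p : closure (range (ev E)), ∃ b : Uni E, p.1 b = 1 ∧
      ∃ i, ∀ p' ∈ closure (range (ev E)), p' b ≠ 0 → p' ∈ U i := by
    intro p
    obtain ⟨i, hi⟩ := hUc p.1 p.2
    obtain ⟨b, hb1, hb2⟩ := hE.base p.2 ((hUo i).mem_nhds hi)
    exact ⟨b, hb1, i, hb2⟩
  choose b hb1 hb2 using h1
  obtain ⟨I, hI⟩ := isCompact_closure_ev.elim_finite_subcover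
    (fun p : closure (range (ev E)) => {p' : Uni E → ℝ | 1 / 2 < p' (b p)})
    (fun p => isOpen_lt continuous_const (continuous_apply _)) (by
      intro p hp
      refine mem_iUnion.2 ⟨⟨p, hp⟩, ?_⟩
      show 1 / 2 < p (b ⟨p, hp⟩)
      have := hb1 ⟨p, hp⟩
      simp only at this
      rw [this]; norm_num)
  obtain ⟨m, g, hgE, hg01, hgs, hgb, hgord⟩ := hW ((fun p => (b p).1) '' ↑I)
    (I.finite_toSet.image _) (by rintro _ ⟨p, -, rfl⟩; exact (b p).2.1) (by
      intro x
      have := hI (subset_closure (mem_range_self x))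
      simp only [mem_iUnion] at this
      obtain ⟨p, hp, hx⟩ := this
      exact ⟨_, mem_image_of_mem _ hp, hx⟩)
  let G : Fin m → Uni E := fun j => ⟨g j, hgE j, hg01 j⟩
  have hcl : IsClosed (closure (range (ev E))) := isClosed_closure
  obtain ⟨V, hVo, hVU, hVc, hVord⟩ := shrink_of_refine (n := n) (A := closure (range (ev E)))
    (fun i => U i ∪ (closure (range (ev E)))ᶜ) (fun j => {p' | p' (G j) ≠ 0})
    (fun j => isOpen_ne_fun (continuous_apply _) continuous_const) (by
      intro j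
      obtain ⟨_, ⟨p, -, rfl⟩, hp⟩ := hgb j
      obtain ⟨i, hi⟩ := hb2 p
      refine ⟨i, fun p' hp' => ?_⟩
      by_cases hp'K : p' ∈ closure (range (ev E))
      · refine Or.inl (hi p' hp'K ?_)
        have : p' ∈ {p' : Uni E → ℝ | p' (G j) = 0} ∪ {p' | 1 / 2 ≤ p' (b p)} := by
          refine closure_minimal ?_ ((isClosed_eq (continuous_apply _) continuous_const).union
            (isClosed_le continuous_const (continuous_apply _))) hp'K
          rintro _ ⟨x, rfl⟩
          by_cases hx : g j x = 0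
          · exact Or.inl hx
          · exact Or.inr (hp x hx)
        rcases this with h | h
        · exact absurd h hp'
        · have h' : 1 / 2 ≤ p' (b p) := h
          intro h0
          linarith
      · exact Or.inr hp'K) (by
      intro p' hp'
      have : p' ∈ {p' : Uni E → ℝ | ∑ j, p' (G j) = 1} := by
        refine closure_minimal ?_ (isClosed_eq (continuous_finsetSum _ fun j _ =>
          continuous_apply (G j)) continuous_const) hp'
        rintro _ ⟨x, rfl⟩
        exact hgs x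
      by_contra hcon
      push Not at hcon
      have h0 : ∑ j, p' (G j) = 0 := Finset.sum_eq_zero fun j _ => not_not.1 (hcon j)
      have h1 : ∑ j, p' (G j) = 1 := this
      linarith) (by
      intro p' hp' s hs
      have : p' ∈ ⋃ j ∈ s, {p' : Uni E → ℝ | p' (G j) = 0} := by
        refine closure_minimal ?_ (s.finite_toSet.isClosed_biUnion fun j _ =>
          isClosed_eq (continuous_apply _) continuous_const) hp'
        rintro _ ⟨x, rfl⟩
        obtain ⟨j, hj, hx⟩ := hgord s hs x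
        exact mem_biUnion hj hx
      simp only [mem_iUnion] at this
      obtain ⟨j, hj, h⟩ := this
      exact ⟨j, hj, not_not.2 h⟩)
  refine ⟨fun i => V i ∩ U i, fun i => (hVo i).inter (hUo i), fun i => inter_subset_right,
    fun p hp => ?_, fun p hp s hs => ?_⟩
  · obtain ⟨i, hi⟩ := hVc p hp
    rcases hVU i hi with h | h
    · exact ⟨i, hi, h⟩
    · exact absurd hp h
  · obtain ⟨i, hi, h⟩ := hVord p hp s hs
    exact ⟨i, hi, fun h' => h h'.1⟩

theorem dimLE_quo {E' : Set (Y → ℝ)} (hE : Lat E) (hE' : Lat E') (hc : E.Countable)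
    (hc' : E'.Countable) (φ : (X → ℝ) ≃ₜ (Y → ℝ)) (h1 : ∀ f ∈ E, φ f ∈ E')
    (h2 : ∀ u ∈ E', φ.symm u ∈ E) {n : ℕ} (hW : Wit n E) : DimLE n (univ : Set (Quo E')) := by
  have : Countable (Uni E) := (hc.mono fun f hf => hf.1 : Set.Countable
    {f : X → ℝ | f ∈ E ∧ ∀ x, 0 ≤ f x ∧ f x ≤ 1}).to_subtype
  have : Countable (Uni E') := (hc'.mono fun f hf => hf.1 : Set.Countable
    {f : Y → ℝ | f ∈ E' ∧ ∀ x, 0 ≤ f x ∧ f x ≤ 1}).to_subtype
  refine dimLE_of_rich (indHomeo hE hE' φ h1 h2) hE.rich hE'.rich ?_ ?_ ?_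
  · intro h hh
    show (φ (h ∘ proj E) ∘ sec E') ∘ proj E' ∈ E'
    rw [hE'.comp_sec_proj (subset_closure (h1 _ hh))]
    exact h1 _ hh
  · intro u hu
    show (φ.symm (u ∘ proj E') ∘ sec E) ∘ proj E ∈ E
    rw [hE.comp_sec_proj (subset_closure (h2 _ hu))]
    exact h2 _ hu
  · refine DimLE.of_image IsInducing.subtypeVal ((hE.dimLE_closure hW).subset ?_)
    rw [Subtype.coe_image_univ]
    exact subset_closure

end Pool.Agent.Lib.MP_e6a955_gt
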