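import Mathlib
import Pool.Agent.Lib.MP_e6a955_gt.Quo

set_option autoImplicit false

/-!
Reduction of the general case to countable lattices of functions.
-/

namespace Pool.Agent.Lib.MP_e6a955_gt

open Set Topology Filter TopologicalSpace

/-- Closing off a countable set under countably many finitary operations. -/
theorem exists_closed_countable {α : Type*} (C : Set α) (G : Set α → Set α) (s0 : Set α)
    (h0 : s0.Countable) (h0C : s0 ⊆ C) (hG : ∀ t, t.Finite → (G t).Countable)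
    (hGC : ∀ t, t.Finite → t ⊆ C → G t ⊆ C) :
    ∃ s : Set α, s.Countable ∧ s0 ⊆ s ∧ s ⊆ C ∧ ∀ t, t.Finite → t ⊆ s → G t ⊆ s := by
  let seq : ℕ → Set α := fun k =>
    Nat.rec s0 (fun _ s => s ∪ ⋃ t ∈ {t : Set α | t.Finite ∧ t ⊆ s}, G t) k
  have hseq : ∀ k, seq (k + 1) = seq k ∪ ⋃ t ∈ {t : Set α | t.Finite ∧ t ⊆ seq k}, G t :=
    fun k => rfl
  have hc : ∀ k, (seq k).Countable ∧ seq k ⊆ C := by
    intro k
    induction k with
    | zero => exact ⟨h0, h0C⟩
    | succ k ih =>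
      rw [hseq]
      refine ⟨ih.1.union ((countable_ofPred_finite_subset ih.1).biUnion fun t ht => hG t ht.1),
        union_subset ih.2 (iUnion₂_subset fun t ht => hGC t ht.1 (ht.2.trans ih.2))⟩
  have hmono : Monotone seq := monotone_nat_of_le_succ fun k => by
    rw [hseq]; exact subset_union_left
  refine ⟨⋃ k, seq k, countable_iUnion fun k => (hc k).1, subset_iUnion seq 0,
    iUnion_subset fun k => (hc k).2, fun t ht hts => ?_⟩
  obtain ⟨k, hk⟩ := hmono.directed_le.exists_mem_subset_of_finset_subset_biUnion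
    (s := ht.toFinset) (by simpa using hts)
  refine Subset.trans ?_ (subset_iUnion seq (k + 1))
  rw [hseq]
  refine Subset.trans ?_ subset_union_right
  exact subset_biUnion_of_mem (u := G) (show t ∈ {t : Set α | t.Finite ∧ t ⊆ seq k} from
    ⟨ht, by simpa using hk⟩)

/-- One step of the lattice operations. -/
def ops {X : Type*} (t : Set (X → ℝ)) : Set (X → ℝ) :=
  range (fun q : ℚ => fun _ : X => (q : ℝ)) ∪ image2 (fun (q : ℚ) f => (q : ℝ) • f) univ t ∪
    image2 (fun f g => f + g) t t ∪ image2 (fun f g => f ⊔ g) t t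

theorem ops_countable {X : Type*} {t : Set (X → ℝ)} (ht : t.Countable) : (ops t).Countable :=
  (((countable_range _).union (countable_univ.image2 ht _)).union (ht.image2 ht _)).union
    (ht.image2 ht _)

theorem ops_continuous {X : Type*} [TopologicalSpace X] {t : Set (X → ℝ)}
    (ht : t ⊆ {f | Continuous f}) : ops t ⊆ {f | Continuous f} := by
  rintro f (((⟨q, rfl⟩ | ⟨q, -, f, hf, rfl⟩) | ⟨f, hf, g, hg, rfl⟩) | ⟨f, hf, g, hg, rfl⟩)
  · exact continuous_const
  · exact Continuous.const_smul (ht hf) _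
  · exact Continuous.add (ht hf) (ht hg)
  · exact Continuous.sup (ht hf) (ht hg)

theorem lat_of_ops {X : Type*} {E : Set (X → ℝ)} (h : ∀ t, t.Finite → t ⊆ E → ops t ⊆ E) :
    Lat E where
  const q := h ∅ finite_empty (empty_subset _) (Or.inl (Or.inl (Or.inl ⟨q, rfl⟩)))
  smul q f hf := h {f} (finite_singleton _) (singleton_subset_iff.2 hf)
    (Or.inl (Or.inl (Or.inr ⟨q, mem_univ _, f, rfl, rfl⟩)))
  add f hf g hg := h {f, g} (toFinite _) (insert_subset hf (singleton_subset_iff.2 hg))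
    (Or.inl (Or.inr ⟨f, by simp, g, by simp, rfl⟩))
  sup f hf g hg := h {f, g} (toFinite _) (insert_subset hf (singleton_subset_iff.2 hg))
    (Or.inr ⟨f, by simp, g, by simp, rfl⟩)

/-- Covering dimension at most `n`, by finite cozero covers. -/
def CozDim (X : Type*) [TopologicalSpace X] (n : ℕ) : Prop :=
  ∀ (k : ℕ) (U : Fin k → Set X),
    (∀ i, ∃ f : C(X, ℝ), U i = {x | f x ≠ 0}) →
    (⋃ i, U i) = Set.univ →
    ∃ (m : ℕ) (V : Fin m → Set X),
      (∀ j, ∃ f : C(X, ℝ), V j = {x | f x ≠ 0}) ∧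
      (⋃ j, V j) = Set.univ ∧
      (∀ j, ∃ i, V j ⊆ U i) ∧
      ∀ s : Finset (Fin m), s.card = n + 2 → (⋂ j ∈ s, V j) = ∅

theorem exists_wit {X : Type*} [TopologicalSpace X] {n : ℕ} (hX : CozDim X n)
    (t : Set (X → ℝ)) (ht : t.Finite) (htC : t ⊆ {f | Continuous f})
    (hcov : ∀ x, ∃ b ∈ t, 1 / 2 < b x) :
    ∃ (m : ℕ) (g : Fin m → X → ℝ), (∀ j, Continuous (g j)) ∧ (∀ j x, 0 ≤ g j x ∧ g j x ≤ 1) ∧
      (∀ x, ∑ j, g j x = 1) ∧ (∀ j, ∃ b ∈ t, ∀ x, g j x ≠ 0 → 1 / 2 ≤ b x) ∧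
      ∀ s : Finset (Fin m), s.card = n + 2 → ∀ x, ∃ j ∈ s, g j x = 0 := by
  obtain ⟨k, e, -, he⟩ := ht.fin_param
  have het : ∀ i, e i ∈ t := fun i => he ▸ mem_range_self i
  obtain ⟨m, V, hV, hVc, hVU, hVord⟩ := hX k (fun i => {x | 1 / 2 < e i x}) (by
    intro i
    refine ⟨⟨fun x => max (e i x - 1 / 2) 0,
      (Continuous.sub (htC (het i)) continuous_const).max continuous_const⟩, ?_⟩
    ext x
    simp only [mem_ofPred_eq, ContinuousMap.coe_mk, ne_eq, max_eq_right_iff, not_le, sub_pos]) (by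
    rw [eq_univ_iff_forall]
    intro x
    obtain ⟨b, hb, hx⟩ := hcov x
    rw [← he] at hb
    obtain ⟨i, rfl⟩ := hb
    exact mem_iUnion.2 ⟨i, hx⟩)
  choose h hh using hV
  have hpos : ∀ x, 0 < ∑ l, |h l x| := by
    intro x
    obtain ⟨j, hj⟩ := mem_iUnion.1 (hVc.symm ▸ mem_univ x : x ∈ ⋃ j, V j)
    rw [hh j] at hj
    exact Finset.sum_pos' (fun l _ => abs_nonneg _) ⟨j, Finset.mem_univ _, abs_pos.2 hj⟩
  have hne : ∀ j x, |h j x| / ∑ l, |h l x| ≠ 0 → x ∈ V j := by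
    intro j x hx
    rw [hh j]
    intro h0
    exact hx (by rw [h0]; simp)
  refine ⟨m, fun j x => |h j x| / ∑ l, |h l x|, ?_, ?_, ?_, ?_, ?_⟩
  · intro j
    exact (h j).continuous.abs.div (continuous_finsetSum _ fun l _ => (h l).continuous.abs)
      fun x => (hpos x).ne'
  · intro j x
    refine ⟨div_nonneg (abs_nonneg _) (hpos x).le, (div_le_one (hpos x)).2 ?_⟩
    exact Finset.single_le_sum (f := fun l => |h l x|) (fun l _ => abs_nonneg _)
      (Finset.mem_univ j)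
  · intro x
    rw [← Finset.sum_div, div_self (hpos x).ne']
  · intro j
    obtain ⟨i, hi⟩ := hVU j
    exact ⟨e i, het i, fun x hx => le_of_lt (hi (hne j x hx))⟩
  · intro s hs x
    by_contra hcon
    push Not at hcon
    have : x ∈ ⋂ j ∈ s, V j := mem_iInter₂.2 fun j hj => hne j x (hcon j hj)
    rw [hVord s hs] at this
    exact this

theorem cozDim_of_homeo {X Y : Type*} [TopologicalSpace X] [TopologicalSpace Y]
    (φ : (X → ℝ) ≃ₜ (Y → ℝ))
    (h1 : ∀ f, Continuous f → Continuous (φ f)) (h2 : ∀ u, Continuous u → Continuous (φ.symm u))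
    {n : ℕ} (hX : CozDim X n) : CozDim Y n := by
  classical
  intro k U hU hUc
  choose u hu using hU
  have hwit : ∀ t : Set (X → ℝ), ∃ w : Set (X → ℝ), w.Finite ∧ w ⊆ {f | Continuous f} ∧
      (t.Finite → t ⊆ {f | Continuous f} → (∀ x, ∃ b ∈ t, 1 / 2 < b x) →
        ∃ (m : ℕ) (g : Fin m → X → ℝ), (∀ j, g j ∈ w) ∧ (∀ j x, 0 ≤ g j x ∧ g j x ≤ 1) ∧
        (∀ x, ∑ j, g j x = 1) ∧ (∀ j, ∃ b ∈ t, ∀ x, g j x ≠ 0 → 1 / 2 ≤ b x) ∧
        ∀ s : Finset (Fin m), s.card = n + 2 → ∀ x, ∃ j ∈ s, g j x = 0) := by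
    intro t
    by_cases h : t.Finite ∧ t ⊆ {f | Continuous f} ∧ ∀ x, ∃ b ∈ t, 1 / 2 < b x
    · obtain ⟨m, g, hg, hrest⟩ := exists_wit hX t h.1 h.2.1 h.2.2
      exact ⟨range g, finite_range g, by rintro _ ⟨j, rfl⟩; exact hg j,
        fun _ _ _ => ⟨m, g, fun j => mem_range_self j, hrest⟩⟩
    · exact ⟨∅, finite_empty, empty_subset _, fun a b c => absurd ⟨a, b, c⟩ h⟩
  choose wit hw1 hw2 hw3 using hwit
  obtain ⟨E, hEc, hE0, hEC, hEG⟩ := exists_closed_countable {f : X → ℝ | Continuous f}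
    (fun t => ops t ∪ wit t ∪ φ.symm '' ops (φ '' t)) (range fun i => φ.symm (u i))
    (countable_range _) (by rintro _ ⟨i, rfl⟩; exact h2 _ (u i).continuous)
    (fun t ht => ((ops_countable ht.countable).union (hw1 t).countable).union
      ((ops_countable (ht.countable.image _)).image _)) (by
      intro t _ htC
      refine union_subset (union_subset (ops_continuous htC) (hw2 t)) ?_
      rintro _ ⟨v, hv, rfl⟩
      refine h2 v (ops_continuous ?_ hv)
      rintro _ ⟨f, hf, rfl⟩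
      exact h1 f (htC hf))
  have hE : Lat E := lat_of_ops fun t ht htE =>
    (subset_union_left.trans subset_union_left).trans (hEG t ht htE)
  have hE' : Lat (φ '' E) := lat_of_ops fun t ht htE => by
    have h3 : φ '' (φ.symm '' t) = t := by
      rw [← image_comp]; simp
    have h4 := subset_union_right.trans (hEG (φ.symm '' t) (ht.image _) (by
      rintro _ ⟨v, hv, rfl⟩
      obtain ⟨f, hf, rfl⟩ := htE hv
      simpa using hf))
    rw [h3] at h4
    intro v hv
    exact ⟨φ.symm v, h4 (mem_image_of_mem _ hv), φ.apply_symm_apply v⟩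
  have hW : Wit n E := by
    intro t ht htE hcov
    obtain ⟨m, g, hg, hrest⟩ := hw3 t ht (htE.trans hEC) hcov
    exact ⟨m, g, fun j => hEG t ht htE (Or.inl (Or.inr (hg j))), hrest⟩
  have hdim := dimLE_quo hE hE' hEc (hEc.image _) φ (fun f hf => mem_image_of_mem _ hf)
    (by rintro _ ⟨f, hf, rfl⟩; simpa using hf) hW
  have huE : ∀ i, (u i : Y → ℝ) ∈ φ '' E := fun i =>
    ⟨φ.symm (u i), hE0 (mem_range_self i), φ.apply_symm_apply _⟩
  have hval : ∀ i y, u i (sec (φ '' E) (proj (φ '' E) y)) = u i y := fun i y =>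
    congrFun (hE'.comp_sec_proj (subset_closure (huE i))) y
  obtain ⟨V, hVo, hVU, hVc, hVord⟩ := hdim (Fin k) (fun i => {p | u i (sec (φ '' E) p) ≠ 0})
    (fun i => isOpen_ne_fun (hE'.continuous_sec (huE i)) continuous_const) (by
      intro p _
      obtain ⟨i, hi⟩ := mem_iUnion.1 (hUc.symm ▸ mem_univ _ : sec (φ '' E) p ∈ ⋃ i, U i)
      rw [hu i] at hi
      exact ⟨i, hi⟩)
  have : Countable (Uni (φ '' E)) := ((hEc.image φ).mono fun f hf => hf.1 : Set.Countable
    {f : Y → ℝ | f ∈ φ '' E ∧ ∀ x, 0 ≤ f x ∧ f x ≤ 1}).to_subtype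
  have hproj : Continuous (proj (φ '' E)) := by
    refine Continuous.subtype_mk (continuous_pi fun b => ?_) _
    obtain ⟨f, hf, hb⟩ := b.2.1
    show Continuous b.1
    rw [← hb]
    exact h1 f (hEC hf)
  refine ⟨k, fun i => proj (φ '' E) ⁻¹' V i, ?_, ?_, ?_, ?_⟩
  · intro i
    obtain ⟨d, hd, -, hd0⟩ := exists_zero_fun (hVo i).isClosed_compl
    refine ⟨⟨d ∘ proj (φ '' E), hd.comp hproj⟩, ?_⟩
    ext y
    simp only [mem_preimage, mem_ofPred_eq, ContinuousMap.coe_mk, Function.comp_apply, ne_eq,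
      hd0, mem_compl_iff, not_not]
  · rw [eq_univ_iff_forall]
    intro y
    obtain ⟨i, hi⟩ := hVc (proj (φ '' E) y) (mem_univ _)
    exact mem_iUnion.2 ⟨i, hi⟩
  · intro i
    refine ⟨i, fun y hy => ?_⟩
    have h3 : u i (sec (φ '' E) (proj (φ '' E) y)) ≠ 0 := hVU i hy
    rw [hval] at h3
    rw [hu i]
    exact h3
  · intro s hs
    rw [eq_empty_iff_forall_notMem]
    intro y hy
    obtain ⟨i, hi, h⟩ := hVord (proj (φ '' E) y) (mem_univ _) s hs
    exact h (mem_iInter₂.1 hy i hi)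

theorem cozDim_iff {X Y : Type*} [TopologicalSpace X] [TopologicalSpace Y]
    (φ : (X → ℝ) ≃ₜ (Y → ℝ))
    (h : φ '' {f : X → ℝ | Continuous f} = {g : Y → ℝ | Continuous g}) (n : ℕ) :
    CozDim X n ↔ CozDim Y n := by
  have h1 : ∀ f, Continuous f → Continuous (φ f) := fun f hf =>
    (h ▸ mem_image_of_mem φ hf : φ f ∈ {g : Y → ℝ | Continuous g})
  have h2 : ∀ u, Continuous u → Continuous (φ.symm u) := by
    intro u hu
    obtain ⟨f, hf, rfl⟩ : u ∈ φ '' {f : X → ℝ | Continuous f} := h.symm ▸ hu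
    simpa using hf
  exact ⟨cozDim_of_homeo φ h1 h2, cozDim_of_homeo φ.symm h2 (by simpa using h1)⟩

end Pool.Agent.Lib.MP_e6a955_gt
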