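import Mathlib
import Pool.Agent.Lib.MP_e6a955_gt.Box

set_option autoImplicit false

/-!
One-sided theory, abstract half: finite supports of an oscillation system, closedness, and a
continuous choice of supports on a nonempty open set of a compact space.
-/

namespace Pool.Agent.Lib.MP_e6a955_gt

open Set Topology Filter TopologicalSpace

variable {X Y : Type*} [TopologicalSpace X] [TopologicalSpace Y] {O : Y → Set X → ℝ → Prop}

/-- The values at `y` of a set of maps. -/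
def vals (S : Set (Y → X)) (y : Y) : Set X := (fun s => s y) '' S

namespace OscSys

/-- A finite set of atoms carries everything up to `ε`. -/
theorem exists_atoms (h : OscSys O) (y : Y) {ε : ℝ} (hε : 0 < ε) :
    ∃ A : Set X, A.Finite ∧ (∀ x ∈ A, O y {x} 0) ∧ ¬ O y Aᶜ ε := by
  obtain ⟨K, hK, hKO⟩ := h.tight y ε hε
  refine ⟨K ∩ {x | O y {x} 0}, hK.subset inter_subset_left, fun x hx => hx.2, fun hO => ?_⟩
  have h1 : O y (K \ {x | O y {x} 0}) 0 :=
    h.sub' (R := (K ∩ {x | O y {x} 0})ᶜ) (S := Kᶜ) (by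
      intro x hx
      by_cases hxK : x ∈ K
      · exact Or.inr ⟨hxK, fun h' => hx ⟨hxK, h'⟩⟩
      · exact Or.inl hxK) (by linarith) hO hKO
  obtain ⟨x, hx, hOx⟩ := h.exists_atom_of_finite (hK.subset sdiff_subset) h1
  exact hx.2 hOx

/-- Failing to be supported on the values of finitely many continuous maps is open. -/
theorem eventually_off [T2Space X] (h : OscSys O) {S : Set (Y → X)} (hS : S.Finite) {P : Set Y}
    (hc : ∀ s ∈ S, ContinuousOn s P) {y : Y} (hy : y ∈ P) {ε : ℝ} (hO : O y (vals S y)ᶜ ε) :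
    ∀ᶠ z in 𝓝[P] y, O z (vals S z)ᶜ ε := by
  obtain ⟨K, hK, hOK⟩ := h.fin_part hO
  obtain ⟨U, W, hU, hW, hKU, hAW, hUW⟩ := SeparatedNhds.of_finite
    (s := (vals S y)ᶜ ∩ K) (t := vals S y) (hK.subset inter_subset_right) (hS.image _)
    (Set.disjoint_left.2 fun x hx hx' => hx.1 hx')
  have h1 : ∀ᶠ z in 𝓝 y, O z U ε := (h.lsc U ε hU).mem_nhds (h.mono hKU hOK)
  have h2 : ∀ᶠ z in 𝓝[P] y, ∀ s ∈ S, s z ∈ W :=
    (eventually_all_finite hS).2 fun s hs =>
      (hc s hs y hy) (hW.mem_nhds (hAW (mem_image_of_mem _ hs)))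
  filter_upwards [nhdsWithin_le_nhds h1, h2] with z hz1 hz2
  refine h.mono ?_ hz1
  rintro x hx ⟨s, hs, rfl⟩
  exact Set.disjoint_left.1 hUW hx (hz2 s hs)

/-- The centre of an unsplittable heavy open set moves continuously. -/
theorem exists_center_fun (h : OscSys O) [Nonempty X] {W : Set Y} {V : Set X} (hV : IsOpen V)
    {η : ℝ} (hη : 0 < η) (h3 : ∀ y ∈ W, O y V (3 * η))
    (hsplit : ∀ y ∈ W, ∀ A B : Set X, A ⊆ V → B ⊆ V → Disjoint A B → O y A η → O y B η → False) :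
    ∃ σ : Y → X, ContinuousOn σ W ∧ ∀ y ∈ W, ∀ x ∈ V, O y {x} (3 * η) → x = σ y := by
  have hcenter : ∀ y ∈ W, ∃ x ∈ V, ¬ O y (V \ {x}) η := fun y hy =>
    h.exists_center hη (h3 y hy) (hsplit y hy)
  choose! σ hσV hσ using hcenter
  refine ⟨σ, ?_, ?_⟩
  · intro y hy
    refine tendsto_nhds.2 fun U hUo hU => ?_
    have h4 : O y (U ∩ V) η := h.sub' (R := V) (S := V \ {σ y}) (by
      intro x hx
      by_cases hxe : x = σ y
      · exact Or.inr ⟨hxe ▸ hU, hx⟩
      · exact Or.inl ⟨hx, hxe⟩) (by linarith) (h3 y hy) (hσ y hy)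
    have h5 : ∀ᶠ z in 𝓝 y, O z (U ∩ V) η := (h.lsc _ _ (hUo.inter hV)).mem_nhds h4
    filter_upwards [nhdsWithin_le_nhds h5, self_mem_nhdsWithin] with z hz hzP
    by_contra hzW
    refine hσ z hzP (h.mono ?_ hz)
    rintro x ⟨hxW, hxV⟩
    refine ⟨hxV, fun hx => hzW ?_⟩
    have hx' : x = σ z := hx
    show σ z ∈ U
    exact hx' ▸ hxW
  · intro y hy x hx hO
    by_contra hne
    refine hσ y hy (h.mono ?_ (h.anti (by linarith) hO))
    rw [singleton_subset_iff]
    exact ⟨hx, hne⟩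

/-- On a smaller open set all heavy atoms in finitely many unsplittable open sets lie on finitely
many continuous graphs. -/
theorem exists_graphs (h : OscSys O) [Nonempty X] {η : ℝ} (hη : 0 < η) (l : List (Set X)) :
    ∀ W : Set Y, IsOpen W → W.Nonempty → (∀ V ∈ l, IsOpen V) →
      (∀ V ∈ l, ∀ y ∈ W, ∀ A B : Set X, A ⊆ V → B ⊆ V → Disjoint A B → O y A η → O y B η →
        False) →
      ∃ (W' : Set Y) (S : Set (Y → X)), IsOpen W' ∧ W'.Nonempty ∧ W' ⊆ W ∧ S.Finite ∧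
        (∀ s ∈ S, ContinuousOn s W') ∧
        ∀ y ∈ W', ∀ V ∈ l, ∀ x ∈ V, O y {x} (3 * η) → x ∈ vals S y := by
  induction l with
  | nil =>
    intro W hWo hWn _ _
    exact ⟨W, ∅, hWo, hWn, Subset.rfl, finite_empty, by simp, by simp⟩
  | cons V l ih =>
    intro W hWo hWn hlo hsp
    obtain ⟨W1, S, hW1o, hW1n, hW1W, hSf, hSc, hS⟩ := ih W hWo hWn
      (fun V' hV' => hlo V' (List.mem_cons_of_mem _ hV'))
      (fun V' hV' => hsp V' (List.mem_cons_of_mem _ hV'))
    have hVo := hlo V List.mem_cons_self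
    by_cases hex : ∃ y ∈ W1, O y V (3 * η)
    · obtain ⟨σ, hσc, hσ⟩ := h.exists_center_fun (W := W1 ∩ {y | O y V (3 * η)}) hVo hη
        (fun y hy => hy.2) (fun y hy => hsp V List.mem_cons_self y (hW1W hy.1))
      refine ⟨W1 ∩ {y | O y V (3 * η)}, insert σ S, hW1o.inter (h.lsc V _ hVo), hex,
        inter_subset_left.trans hW1W, hSf.insert _, ?_, ?_⟩
      · intro s hs
        rcases hs with rfl | hs
        · exact hσc
        · exact (hSc s hs).mono inter_subset_left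
      · intro y hy V' hV' x hx hO
        rcases List.mem_cons.1 hV' with rfl | hV'
        · exact ⟨σ, mem_insert _ _, (hσ y hy x hx hO).symm⟩
        · exact image_mono (subset_insert _ _) (hS y hy.1 V' hV' x hx hO)
    · refine ⟨W1, S, hW1o, hW1n, hW1W, hSf, hSc, ?_⟩
      intro y hy V' hV' x hx hO
      rcases List.mem_cons.1 hV' with rfl | hV'
      · exact absurd ⟨y, hy, h.mono (singleton_subset_iff.2 hx) hO⟩ hex
      · exact hS y hy V' hV' x hx hO

theorem exists_max_big' (h : OscSys O) (y : Y) {η : ℝ} (hη : 0 < η) :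
    ∃ k, Big O η k y ∧ ¬ Big O η (k + 1) y := by
  by_cases h1 : Big O η 1 y
  · obtain ⟨k, hk⟩ := h.exists_max_big hη h1
    exact ⟨k + 1, hk⟩
  · exact ⟨0, ⟨[], rfl, List.Pairwise.nil, by simp⟩, h1⟩

/-- A continuous choice of finite supports on some nonempty open set. -/
theorem exists_open_support [T2Space X] [Nonempty X] [BaireSpace Y] [Nonempty Y] (h : OscSys O)
    {ε : ℝ} (hε : 0 < ε) :
    ∃ (W : Set Y) (S : Set (Y → X)), IsOpen W ∧ W.Nonempty ∧ S.Finite ∧
      (∀ s ∈ S, ContinuousOn s W) ∧ ∀ y ∈ W, ¬ O y (vals S y)ᶜ ε := by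
  classical
  let D : ℕ × ℕ → Set Y := fun p =>
    {y | ¬ O y {x | O y {x} (3 * (1 / ((p.1 : ℝ) + 1)))}ᶜ ε ∧
      Big O (1 / ((p.1 : ℝ) + 1)) p.2 y ∧ ¬ Big O (1 / ((p.1 : ℝ) + 1)) (p.2 + 1) y}
  have hcov : ⋃ p, closure (D p) = univ := by
    rw [eq_univ_iff_forall]
    intro y
    obtain ⟨A, hA, hAa, hAO⟩ := h.exists_atoms y hε
    have h1 : ∀ᶠ m : ℕ in atTop, ∀ x ∈ A, O y {x} (3 * (1 / ((m : ℝ) + 1))) := by
      refine (eventually_all_finite hA).2 fun x hx => ?_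
      obtain ⟨t, ht, hOt⟩ := h.more (hAa x hx)
      have h2 : ∀ᶠ m : ℕ in atTop, 1 / ((m : ℝ) + 1) < t / 3 :=
        tendsto_one_div_add_atTop_nhds_zero_nat (𝕜 := ℝ) (Iio_mem_nhds (by linarith))
      filter_upwards [h2] with m hm
      exact h.anti (by linarith) hOt
    obtain ⟨m, hm⟩ := h1.exists
    obtain ⟨k, hk1, hk2⟩ := h.exists_max_big' y (η := 1 / ((m : ℝ) + 1)) Nat.one_div_pos_of_nat
    refine mem_iUnion.2 ⟨(m, k), subset_closure ⟨fun hO => hAO (h.mono ?_ hO), hk1, hk2⟩⟩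
    exact compl_subset_compl.2 fun x hx => hm x hx
  obtain ⟨⟨m, k⟩, hp⟩ := nonempty_interior_of_iUnion_of_closed
    (fun p => isClosed_closure (s := D p)) hcov
  set η : ℝ := 1 / ((m : ℝ) + 1) with hηdef
  have hη : 0 < η := Nat.one_div_pos_of_nat
  set W0 : Set Y := interior (closure (D (m, k))) with hW0
  have hdense : ∀ U : Set Y, IsOpen U → U.Nonempty → U ⊆ W0 → (U ∩ D (m, k)).Nonempty := by
    rintro U hU ⟨y, hy⟩ hUW
    exact mem_closure_iff.1 (interior_subset (hUW hy)) U hU hy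
  have hnob : ∀ y ∈ W0, ¬ Big O η (k + 1) y := by
    intro y hy
    have : closure (D (m, k)) ⊆ {y | Big O η (k + 1) y}ᶜ :=
      closure_minimal (fun z hz => hz.2.2) (h.isOpen_big η (k + 1)).isClosed_compl
    exact this (interior_subset hy)
  obtain ⟨y0, hy0W, hy0D⟩ := hdense W0 isOpen_interior hp Subset.rfl
  obtain ⟨l, hl, hlp, hlO⟩ := hy0D.2.1
  obtain ⟨K, hK, hOK⟩ := h.fin_part_list l hlO
  obtain ⟨nb, hnbo, hnb, hnbd⟩ := exists_nb hK
  have hLo : ∀ V ∈ l.map nb, IsOpen V := by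
    intro V hV
    obtain ⟨S', -, rfl⟩ := List.mem_map.1 hV
    exact hnbo _
  have hLp : (l.map nb).Pairwise Disjoint := by
    rw [List.pairwise_map]
    exact hlp.imp (hnbd _ _)
  have hLl : (l.map nb).length = k := by simp [hl]
  have hev := h.eventually_list (y := y0) (η := η) (l.map nb) (by
    intro S hS
    refine ⟨hLo S hS, ?_⟩
    obtain ⟨S', hS', rfl⟩ := List.mem_map.1 hS
    exact h.mono (hnb _) (hOK S' hS'))
  generalize l.map nb = L at hLo hLp hLl hev
  obtain ⟨W1, hW1sub, hW1o, hy0W1⟩ := mem_nhds_iff.1 hev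
  obtain ⟨W, S, hWo, hWn, hWW, hSf, hSc, hS⟩ := h.exists_graphs hη L (W0 ∩ W1)
    (isOpen_interior.inter hW1o) ⟨y0, hy0W, hy0W1⟩ hLo (by
      intro V hV y hy A B hA hB hAB hOA hOB
      have hperm := List.perm_cons_erase hV
      have hp2 : (V :: L.erase V).Pairwise Disjoint :=
        hLp.perm hperm fun hxy => hxy.symm
      rw [List.pairwise_cons] at hp2
      refine hnob y hy.1 ⟨A :: B :: L.erase V, ?_, ?_, ?_⟩
      · have := hperm.length_eq
        simp only [List.length_cons] at this ⊢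
        omega
      · rw [List.pairwise_cons, List.pairwise_cons]
        refine ⟨?_, fun T hT => (hp2.1 T hT).mono_left hB, hp2.2⟩
        intro T hT
        rcases List.mem_cons.1 hT with rfl | hT
        · exact hAB
        · exact (hp2.1 T hT).mono_left hA
      · intro T hT
        rcases List.mem_cons.1 hT with rfl | hT
        · exact hOA
        rcases List.mem_cons.1 hT with rfl | hT
        · exact hOB
        · exact hW1sub hy.2 T (List.mem_of_mem_erase hT))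
  have hheavy : ∀ y ∈ W, ∀ x, O y {x} (3 * η) → x ∈ vals S y := by
    intro y hy x hO
    by_cases hx : ∃ V ∈ L, x ∈ V
    · obtain ⟨V, hV, hxV⟩ := hx
      exact hS y hy V hV x hxV hO
    · exfalso
      refine hnob y (hWW hy).1 ⟨{x} :: L, by simp [hLl], ?_, ?_⟩
      · rw [List.pairwise_cons]
        exact ⟨fun T hT => disjoint_singleton_left.2 fun hxT => hx ⟨T, hT, hxT⟩, hLp⟩
      · intro T hT
        rcases List.mem_cons.1 hT with rfl | hT
        · exact h.anti (by linarith) hO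
        · exact hW1sub (hWW hy).2 T hT
  refine ⟨W, S, hWo, hWn, hSf, hSc, fun y hy hO => ?_⟩
  have h1 := h.eventually_off hSf hSc hy hO
  rw [hWo.nhdsWithin_eq hy] at h1
  obtain ⟨U, hUsub, hUo, hyU⟩ := mem_nhds_iff.1 h1
  obtain ⟨z, hz, hzD⟩ := hdense (U ∩ W) (hUo.inter hWo) ⟨y, hyU, hy⟩
    fun z hz => (hWW hz.2).1
  exact hzD.1 (h.mono (compl_subset_compl.2 fun x hx => hheavy z hz.2 x hx) (hUsub hz.1))

/-- Second countable case: countably many closed pieces with a continuous choice of supports. -/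
theorem support_pieces [T2Space X] [RegularSpace Y] [SecondCountableTopology X]
    [SecondCountableTopology Y] (h : OscSys O) {ε : ℝ} (hε : 0 < ε) :
    ∃ Q : Set (Set Y × Set (Y → X)), Q.Countable ∧
      (∀ q ∈ Q, IsClosed q.1 ∧ q.2.Finite ∧ (∀ s ∈ q.2, ContinuousOn s q.1) ∧
        ∀ y ∈ q.1, ¬ O y (vals q.2 y)ᶜ ε) ∧ ∀ y, ∃ q ∈ Q, y ∈ q.1 := by
  obtain ⟨PP, hPc, hP, hPcov⟩ := h.pieces
  let mk : Set (Set Y × (Y → X)) → Set Y × Set (Y → X) := fun T =>
    ({y | (∀ p ∈ T, y ∈ p.1) ∧ ¬ O y (vals (Prod.snd '' T) y)ᶜ ε}, Prod.snd '' T)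
  refine ⟨mk '' {T | T.Finite ∧ T ⊆ PP}, (countable_ofPred_finite_subset hPc).image _, ?_, ?_⟩
  · rintro _ ⟨T, ⟨hTf, hTP⟩, rfl⟩
    have hcont : ∀ s ∈ Prod.snd '' T, ContinuousOn s {y | ∀ p ∈ T, y ∈ p.1} := by
      rintro _ ⟨p, hp, rfl⟩
      exact (hP p (hTP hp)).2.mono fun y hy => hy p hp
    have hcl : IsClosed {y | ∀ p ∈ T, y ∈ p.1} := by
      have : {y | ∀ p ∈ T, y ∈ p.1} = ⋂ p ∈ T, p.1 := by ext y; simp
      rw [this]
      exact isClosed_biInter fun p hp => (hP p (hTP hp)).1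
    refine ⟨?_, hTf.image _, fun s hs => (hcont s hs).mono fun y hy => hy.1, fun y hy => hy.2⟩
    refine isClosed_of_closure_subset fun y hy => ?_
    have hy1 : y ∈ {y | ∀ p ∈ T, y ∈ p.1} := closure_minimal (fun z hz => hz.1) hcl hy
    refine ⟨hy1, fun hO => ?_⟩
    have h1 := h.eventually_off (hTf.image _) hcont hy1 hO
    rw [eventually_nhdsWithin_iff] at h1
    obtain ⟨z, hz1, hz2⟩ := mem_closure_iff_nhds.1 hy _ h1
    exact hz2.2 (hz1 hz2.1)
  · intro y
    obtain ⟨A, hA, hAa, hAO⟩ := h.exists_atoms y hε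
    have h1 : ∀ x : A, ∃ p ∈ PP, y ∈ p.1 ∧ p.2 y = x := fun x => hPcov y x (hAa x x.2)
    choose p hp1 hp2 hp3 using h1
    have : Finite A := hA
    refine ⟨mk (range p), mem_image_of_mem _ ⟨finite_range _, range_subset_iff.2 hp1⟩, ?_, ?_⟩
    · rintro _ ⟨x, rfl⟩
      exact hp2 x
    · refine fun hO => hAO (h.mono (compl_subset_compl.2 fun x hx => ?_) hO)
      exact ⟨(p ⟨x, hx⟩).2, mem_image_of_mem _ (mem_range_self _), hp3 ⟨x, hx⟩⟩

end OscSys

end Pool.Agent.Lib.MP_e6a955_gt
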