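import Mathlib
import Pool.Agent.Lib.MP_e6a955_gt.OneA

set_option autoImplicit false

/-!
One-sided theory, concrete half: a ball of `C(Y)` inside the image of a box, countability of the
set of points supported on a fixed finite set, and total disconnectedness.
-/

namespace Pool.Agent.Lib.MP_e6a955_gt

open Set Topology Filter TopologicalSpace

variable {X Y : Type*} [TopologicalSpace X] [TopologicalSpace Y]

/-- Bounded continuous functions. -/
def Bdd (X : Type*) [TopologicalSpace X] : Set (X → ℝ) :=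
  {f | Continuous f ∧ ∃ M : ℝ, ∀ x, |f x| ≤ M}

theorem rich_bdd [CompletelyRegularSpace X] : Rich (Bdd X) where
  cont f hf := hf.1
  zero := ⟨continuous_const, 0, by simp⟩
  add := by
    rintro f ⟨hf, M, hM⟩ g ⟨hg, N, hN⟩
    exact ⟨hf.add hg, M + N, fun x => (abs_add_le _ _).trans (add_le_add (hM x) (hN x))⟩
  smul := by
    rintro q f ⟨hf, M, hM⟩
    refine ⟨hf.const_smul _, |(q : ℝ)| * M, fun x => ?_⟩
    rw [Pi.smul_apply, smul_eq_mul, abs_mul]
    exact mul_le_mul_of_nonneg_left (hM x) (abs_nonneg _)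
  bump := by
    intro x W hW
    obtain ⟨U, hUW, hUo, hxU⟩ := mem_nhds_iff.1 hW
    obtain ⟨f, hf, hfx, hf1⟩ := CompletelyRegularSpace.completely_regular x Uᶜ
      hUo.isClosed_compl (fun h => h hxU)
    refine ⟨fun z => 1 - (f z : ℝ), ⟨continuous_const.sub (continuous_subtype_val.comp hf), 1,
      fun z => ?_⟩, by simp [hfx], fun z => ?_, fun z hz => ?_⟩
    · have h1 := (f z).2.1
      have h2 := (f z).2.2
      rw [abs_le]; constructor <;> linarith
    · have h1 := (f z).2.1
      have h2 := (f z).2.2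
      constructor <;> linarith
    · have : f z = 1 := hf1 fun h => hz (hUW h)
      simp [this]

omit [TopologicalSpace X] in
/-- By the Baire theorem the image of some box contains a ball of `C(Y)`. -/
theorem exists_ball [CompactSpace Y] {φ : (X → ℝ) → (Y → ℝ)} (hφ : Continuous φ)
    (hsurj : ∀ g : Y → ℝ, Continuous g → ∃ f : X → ℝ, (∃ M : ℝ, ∀ x, |f x| ≤ M) ∧ φ f = g) :
    ∃ M : ℝ, 0 < M ∧ ∃ (g0 : C(Y, ℝ)) (δ : ℝ), 0 < δ ∧
      ∀ g : C(Y, ℝ), dist g g0 < δ → ∃ f ∈ box (fun _ : X => M), φ f = g := by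
  let T : ℕ → Set C(Y, ℝ) := fun m => {g | (g : Y → ℝ) ∈ φ '' box (fun _ : X => (m : ℝ) + 1)}
  have hc : ∀ m, IsClosed (T m) := fun m =>
    ((isCompact_box _).image hφ).isClosed.preimage continuous_coeFun
  have hU : ⋃ m, T m = univ := by
    rw [eq_univ_iff_forall]
    intro g
    obtain ⟨f, ⟨M, hM⟩, hf⟩ := hsurj g g.continuous
    obtain ⟨m, hm⟩ := exists_nat_ge M
    exact mem_iUnion.2 ⟨m, f, fun x => by have := hM x; linarith, hf⟩
  obtain ⟨m, g0, hg0⟩ := nonempty_interior_of_iUnion_of_closed hc hU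
  obtain ⟨δ, hδ, hb⟩ := Metric.mem_nhds_iff.1 (mem_interior_iff_mem_nhds.1 hg0)
  exact ⟨(m : ℝ) + 1, by positivity, g0, δ, hδ, fun g hg => hb hg⟩

omit [TopologicalSpace X] in
/-- Only countably many points are supported on a given finite set. -/
theorem countable_supported [CompactSpace Y] [T2Space Y] {φ : (X → ℝ) → (Y → ℝ)}
    (hφ : Continuous φ) {M : ℝ} (hM : 0 < M) {g0 : C(Y, ℝ)} {δ : ℝ} (hδ : 0 < δ)
    (hball : ∀ g : C(Y, ℝ), dist g g0 < δ → ∃ f ∈ box (fun _ : X => M), φ f = g)
    {A : Set X} (hA : A.Finite) :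
    {y | ¬ osc φ (fun _ => M) y Aᶜ (δ / 8)}.Countable := by
  classical
  have : Finite A := hA
  let e : (A → ℝ) → (X → ℝ) := fun q x => if hx : x ∈ A then q ⟨x, hx⟩ else 0
  have he : Continuous e := by
    refine continuous_pi fun x => ?_
    by_cases hx : x ∈ A
    · simp only [e, hx, dite_true]; exact continuous_apply _
    · simp only [e, hx, dite_false]; exact continuous_const
  let Q := ↥(box (fun _ : A => M))
  have : CompactSpace Q := isCompact_iff_compactSpace.1 (isCompact_box _)
  let H : Y → C(Q, ℝ) := fun y => ⟨fun q => φ (e q.1) y - g0 y,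
    ((continuous_apply y).comp (hφ.comp (he.comp continuous_subtype_val))).sub continuous_const⟩
  have hsep : ∀ y, ¬ osc φ (fun _ => M) y Aᶜ (δ / 8) → ∀ y', ¬ osc φ (fun _ => M) y' Aᶜ (δ / 8) →
      y ≠ y' → δ / 4 ≤ dist (H y) (H y') := by
    intro y hy y' hy' hne
    obtain ⟨u, hu0, hu1, hu⟩ := exists_continuous_zero_one_of_isClosed
      (isClosed_singleton (x := y')) (isClosed_singleton (x := y))
      (disjoint_singleton.2 hne.symm)
    have hu0' : u y' = 0 := hu0 rfl
    have hu1' : u y = 1 := hu1 rfl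
    obtain ⟨f, hf, hfg⟩ := hball (g0 + (δ / 2) • u) (by
      rw [ContinuousMap.dist_lt_iff hδ]
      intro z
      have h1 := (hu z).1
      have h2 := (hu z).2
      simp only [ContinuousMap.add_apply, ContinuousMap.smul_apply, smul_eq_mul, Real.dist_eq,
        add_sub_cancel_left]
      rw [abs_lt]
      constructor <;> nlinarith)
    let q : Q := ⟨fun a => f a, fun a => hf a⟩
    have hq : e q.1 ∈ box (fun _ : X => M) := by
      intro x
      by_cases hx : x ∈ A
      · simp only [e, hx, dite_true]; exact hf x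
      · simp only [e, hx, dite_false, abs_zero]; exact hM.le
    have hag : ∀ x, x ∉ Aᶜ → f x = e q.1 x := by
      intro x hx
      have hx' : x ∈ A := not_not.1 hx
      simp only [e, hx', dite_true, q]
    have h1 : |φ f y - φ (e q.1) y| ≤ δ / 8 := not_lt.1 fun hlt => hy ⟨f, hf, _, hq, hag, hlt⟩
    have h2 : |φ f y' - φ (e q.1) y'| ≤ δ / 8 := not_lt.1 fun hlt => hy' ⟨f, hf, _, hq, hag, hlt⟩
    have h3 : φ f y = g0 y + δ / 2 := by rw [hfg]; simp [hu1']
    have h4 : φ f y' = g0 y' := by rw [hfg]; simp [hu0']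
    refine le_trans ?_ (ContinuousMap.dist_apply_le_dist (f := H y) (g := H y') q)
    show δ / 4 ≤ |(φ (e q.1) y - g0 y) - (φ (e q.1) y' - g0 y')|
    rw [abs_le] at h1 h2
    refine le_trans ?_ (le_abs_self _)
    linarith [h1.1, h1.2, h2.1, h2.2]
  refine Set.PairwiseDisjoint.countable_of_isOpen (s := fun y => Metric.ball (H y) (δ / 8)) ?_
    (fun _ _ => Metric.isOpen_ball) fun _ _ => Metric.nonempty_ball.2 (by linarith)
  intro y hy y' hy' hne
  exact Metric.ball_disjoint_ball (by have := hsep y hy y' hy' hne; linarith)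

/-- The oscillation system of a one-sided map, with countable support classes. -/
theorem exists_system [CompletelyRegularSpace X] [T2Space X] [CompactSpace Y] [T2Space Y]
    {φ : (X → ℝ) → (Y → ℝ)} (hφ : Continuous φ) (h : φ '' Bdd X = {g | Continuous g}) :
    ∃ (O : Y → Set X → ℝ → Prop) (ε : ℝ), OscSys O ∧ 0 < ε ∧
      ∀ A : Set X, A.Finite → {y | ¬ O y Aᶜ ε}.Countable := by
  obtain ⟨M, hM, g0, δ, hδ, hball⟩ := exists_ball hφ (fun g hg => by
    obtain ⟨f, hf, hfg⟩ : g ∈ φ '' Bdd X := h ▸ hg
    exact ⟨f, hf.2, hfg⟩)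
  refine ⟨osc φ fun _ => M, δ / 8, oscSys_osc rich_bdd (fun _ => hM)
    (fun _ _ hc => Eventually.of_forall fun _ => hc) hφ fun f hf => ?_, by linarith,
    fun A hA => countable_supported hφ hM hδ hball hA⟩
  have : φ f ∈ {g : Y → ℝ | Continuous g} := h ▸ mem_image_of_mem φ hf
  exact this

/-- Countable subsets of a compact Hausdorff space are totally disconnected. -/
theorem isTotallyDisconnected_of_countable [CompactSpace Y] [T2Space Y] {s : Set Y}
    (hs : s.Countable) : IsTotallyDisconnected s := by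
  intro t hts ht y hy y' hy'
  by_contra hne
  obtain ⟨u, hu0, hu1, -⟩ := exists_continuous_zero_one_of_isClosed
    (isClosed_singleton (x := y)) (isClosed_singleton (x := y')) (disjoint_singleton.2 hne)
  have h1 := ((hs.mono hts).image u).isTotallyDisconnected _ Subset.rfl
    (ht.image u u.continuous.continuousOn) (mem_image_of_mem _ hy) (mem_image_of_mem _ hy')
  rw [hu0 rfl, hu1 rfl] at h1
  simp at h1

/-- A compact connected space with a nonempty open totally disconnected subset is a point. -/
theorem subsingleton_of_open {K : Type*} [TopologicalSpace K] [CompactSpace K] [T2Space K]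
    [PreconnectedSpace K] {W : Set K} (hWo : IsOpen W) (hWn : W.Nonempty)
    (hW : IsTotallyDisconnected W) : Subsingleton K := by
  obtain ⟨y, hy⟩ := hWn
  have : TotallyDisconnectedSpace W := totallyDisconnectedSpace_subtype_iff.2 hW
  have : LocallyCompactSpace W := hWo.locallyCompactSpace
  obtain ⟨C, hCc, hyC, -⟩ := exists_compact_subset (X := W) isOpen_univ (mem_univ ⟨y, hy⟩)
  obtain ⟨V, hV, hyV, hVC⟩ := (loc_compact_Haus_tot_disc_of_zero_dim (H := W)).mem_nhds_iff.1
    (isOpen_interior.mem_nhds hyC)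
  have hV' : IsClopen V := hV
  have hVc : IsCompact V := hCc.of_isClosed_subset hV'.1 (hVC.trans interior_subset)
  have h1 : IsClopen (Subtype.val '' V : Set K) :=
    ⟨(hVc.image continuous_subtype_val).isClosed, hWo.isOpenMap_subtype_val _ hV'.2⟩
  have h2 := h1.eq_univ ⟨y, mem_image_of_mem _ hyV⟩
  have h3 : (univ : Set K) ⊆ W := by
    rw [← h2]
    rintro _ ⟨z, -, rfl⟩
    exact z.2
  exact ⟨fun a b => hW univ h3 isPreconnected_univ (mem_univ a) (mem_univ b)⟩

theorem totallyDisconnected_of_system [T2Space X] [TotallyDisconnectedSpace X] [CompactSpace Y]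
    [T2Space Y] {O : Y → Set X → ℝ → Prop} {ε : ℝ} (hO : OscSys O) (hε : 0 < ε)
    (hc : ∀ A : Set X, A.Finite → {y | ¬ O y Aᶜ ε}.Countable) : TotallyDisconnectedSpace Y := by
  rcases isEmpty_or_nonempty X with hX | hX
  · refine ⟨isTotallyDisconnected_of_countable ((hc ∅ finite_empty).mono fun y _ => ?_)⟩
    have : (∅ : Set X)ᶜ = ∅ := eq_empty_of_isEmpty _
    rw [mem_ofPred_eq, this]
    exact hO.not_empty y hε.le
  rw [totallyDisconnectedSpace_iff_connectedComponent_subsingleton]
  intro y0
  let K := ↥(connectedComponent y0)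
  have : CompactSpace K := isCompact_iff_compactSpace.1 isClosed_connectedComponent.isCompact
  have : PreconnectedSpace K := Subtype.preconnectedSpace isPreconnected_connectedComponent
  have : Nonempty K := ⟨⟨y0, mem_connectedComponent⟩⟩
  have hO' : OscSys (fun y : K => O y.1) :=
    ⟨hO.mono, hO.anti, hO.sub, fun y => hO.tight y.1, hO.more,
      fun V t hV => (hO.lsc V t hV).preimage continuous_subtype_val⟩
  obtain ⟨W, S, hWo, hWn, hSf, hSc, hS⟩ := hO'.exists_open_support hε
  have hW : IsTotallyDisconnected W := by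
    intro t htW ht y hy y' hy'
    have h1 : ∀ z ∈ t, vals S z = vals S y := by
      intro z hz
      refine image_congr fun s hs => ?_
      exact (ht.image s ((hSc s hs).mono htW)).subsingleton (mem_image_of_mem _ hz)
        (mem_image_of_mem _ hy)
    have h2 : t.Countable := by
      refine ((hc (vals S y) (hSf.image _)).preimage Subtype.val_injective).mono fun z hz => ?_
      have := hS z (htW hz)
      rw [h1 z hz] at this
      exact this
    exact isTotallyDisconnected_of_countable h2 t Subset.rfl ht hy hy'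
  have := subsingleton_of_open hWo hWn hW
  exact (subsingleton_coe _).1 this

/-- One-sided preservation of total disconnectedness. -/
theorem totallyDisconnected_of_map [CompletelyRegularSpace X] [T2Space X]
    [TotallyDisconnectedSpace X] [CompactSpace Y] [T2Space Y] {φ : (X → ℝ) → (Y → ℝ)}
    (hφ : Continuous φ) (h : φ '' Bdd X = {g | Continuous g}) : TotallyDisconnectedSpace Y := by
  obtain ⟨O, ε, hO, hε, hc⟩ := exists_system hφ h
  exact totallyDisconnected_of_system hO hε hc

end Pool.Agent.Lib.MP_e6a955_gt
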