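import Mathlib
import Pool.Agent.Lib.MP_e6a955_gt.Main
import Pool.Agent.Lib.MP_e6a955_gt.OneB

set_option autoImplicit false

/-!
One-sided preservation of covering dimension zero on the second countable quotients.
-/

namespace Pool.Agent.Lib.MP_e6a955_gt

open Set Topology Filter TopologicalSpace

theorem DimLE.isTotallyDisconnected {T : Type*} [TopologicalSpace T] [T1Space T] {A : Set T}
    (h : DimLE 0 A) : IsTotallyDisconnected A := by
  intro t htA ht x hx y hy
  by_contra hne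
  obtain ⟨V, hVo, hVU, hVc, hVord⟩ := h Bool (fun i => cond i {x}ᶜ {y}ᶜ)
    (fun i => by cases i <;> exact isOpen_compl_singleton) (by
      intro z _
      by_cases hz : z = x
      · exact ⟨false, fun h' => hne (hz.symm.trans h')⟩
      · exact ⟨true, hz⟩)
  have hxV : x ∈ V false := by
    obtain ⟨i, hi⟩ := hVc x (htA hx)
    cases i
    · exact hi
    · exact absurd rfl (hVU true hi)
  have hyV : y ∈ V true := by
    obtain ⟨i, hi⟩ := hVc y (htA hy)
    cases i
    · exact absurd rfl (hVU false hi)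
    · exact hi
  obtain ⟨z, hzt, hz1, hz2⟩ := ht (V false) (V true) (hVo _) (hVo _) (by
    intro z hz
    obtain ⟨i, hi⟩ := hVc z (htA hz)
    cases i
    · exact Or.inl hi
    · exact Or.inr hi) ⟨x, hx, hxV⟩ ⟨y, hy, hyV⟩
  obtain ⟨i, -, hi⟩ := hVord z (htA hzt) Finset.univ (by simp)
  cases i
  · exact hi hz1
  · exact hi hz2

theorem dimLE_zero_of_compact {T : Type*} [TopologicalSpace T] [T2Space T] {A : Set T}
    (hA : IsCompact A) (h : IsTotallyDisconnected A) : DimLE 0 A := by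
  have : CompactSpace A := isCompact_iff_compactSpace.1 hA
  have : TotallyDisconnectedSpace A := totallyDisconnectedSpace_subtype_iff.2 h
  have key : DimLE 0 (univ : Set A) := by
    intro ι _ U hUo hUc
    have hcov : IsOpenCover (fun i => (⟨U i, hUo i⟩ : Opens A)) :=
      IsOpenCover.of_sets hUo (eq_univ_of_forall fun y => mem_iUnion.2 (hUc y (mem_univ y)))
    obtain ⟨n, W, hW1, hW2, hW3⟩ := hcov.exists_finite_nonempty_disjoint_clopen_cover
    refine shrink_of_refine U (fun j => (W j : Set A)) (fun j => (W j).isClopen.2)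
      (fun j => (hW1 j).2) (fun y hy => mem_iUnion.1 (hW2 hy)) fun y _ s hs => ?_
    obtain ⟨a, b, hab, rfl⟩ := Finset.card_eq_two.1 hs
    by_contra hcon
    push Not at hcon
    have h1 : W a ⊓ W b = ⊥ := disjoint_iff.1 (hW3 hab)
    have h2 : y ∈ ((W a ⊓ W b : Clopens A) : Set A) := ⟨hcon a (by simp), hcon b (by simp)⟩
    rw [h1] at h2
    exact h2
  have := key.image IsInducing.subtypeVal
  rwa [Subtype.coe_image_univ] at this

/-- A modulus of continuity of one coordinate on the box. -/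
theorem exists_modulus {X Y : Type*} {φ : (X → ℝ) → (Y → ℝ)} (hφ : Continuous φ) (r : X → ℝ)
    (y : Y) {ε : ℝ} (hε : 0 < ε) :
    ∃ n : ℕ, ∀ f ∈ box r, ∀ g ∈ box r, (∀ x, |f x - g x| ≤ 1 / ((n : ℝ) + 1)) →
      |φ f y - φ g y| ≤ ε := by
  have hD : Continuous fun p : (X → ℝ) × (X → ℝ) => |φ p.1 y - φ p.2 y| :=
    (((continuous_apply y).comp (hφ.comp continuous_fst)).sub
      ((continuous_apply y).comp (hφ.comp continuous_snd))).abs
  have hc : IsCompact ((box r ×ˢ box r) ∩ {p | ε ≤ |φ p.1 y - φ p.2 y|}) :=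
    ((isCompact_box r).prod (isCompact_box r)).inter_right (isClosed_le continuous_const hD)
  obtain ⟨n, hn⟩ := hc.elim_directed_family_closed
    (fun n : ℕ => {p : (X → ℝ) × (X → ℝ) | ∀ x, |p.1 x - p.2 x| ≤ 1 / ((n : ℝ) + 1)})
    (fun n => by
      rw [ofPred_forall]
      exact isClosed_iInter fun x => isClosed_le
        (((continuous_apply x).comp continuous_fst).sub
          ((continuous_apply x).comp continuous_snd)).abs continuous_const)
    (by
      rw [eq_empty_iff_forall_notMem]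
      rintro ⟨f, g⟩ ⟨⟨-, h1⟩, h2⟩
      have h3 : f = g := by
        funext x
        by_contra hne
        obtain ⟨n, hn⟩ := exists_nat_one_div_lt (abs_pos.2 (sub_ne_zero.2 hne))
        exact absurd (mem_iInter.1 h2 n x) (not_le.2 hn)
      subst h3
      simp only [mem_ofPred_eq, sub_self, abs_zero] at h1
      linarith)
    (by
      refine directed_of_isDirected_le fun a b hab p hp x => (hp x).trans ?_
      exact Nat.one_div_le_one_div hab)
  refine ⟨n, fun f hf g hg hfg => ?_⟩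
  by_contra hlt
  exact eq_empty_iff_forall_notMem.1 hn (f, g) ⟨⟨⟨hf, hg⟩, (not_le.1 hlt).le⟩, hfg⟩

/-- Counting the points over one support. -/
theorem countable_fibre {I J : Type*} [Fintype J] {Φ : Set (I → ℝ)} (v : I → J → ℝ)
    (hv : ∀ u j, v u j ∈ Icc (0 : ℝ) 1) {η : ℝ} (hη : 0 < η)
    (h : ∀ u u', dist (v u) (v u') < η → ∀ p ∈ Φ, |p u - p u'| ≤ 1 / 4)
    (hsep : ∀ p ∈ Φ, ∀ p' ∈ Φ, p ≠ p' → ∃ u, p u = 1 ∧ p' u = 0) : Φ.Countable := by
  have htb : TotallyBounded (range v) :=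
    (isCompact_univ_pi fun _ : J => (isCompact_Icc (a := (0 : ℝ)) (b := 1))).totallyBounded.subset
      (by rintro _ ⟨u, rfl⟩ j _; exact hv u j)
  obtain ⟨t, hts, htf, htc⟩ := Metric.finite_approx_of_totallyBounded htb η hη
  have h1 : ∀ w : t, ∃ u, v u = w := fun w => hts w.2
  choose k hk using h1
  have : Fintype t := htf.fintype
  refine Set.PairwiseDisjoint.countable_of_isOpen
    (s := fun p : I → ℝ => Metric.ball (fun w : t => p (k w)) (1 / 4)) ?_
    (fun _ _ => Metric.isOpen_ball) fun _ _ => Metric.nonempty_ball.2 (by norm_num)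
  intro p hp p' hp' hne
  refine Metric.ball_disjoint_ball ?_
  obtain ⟨u, hu1, hu0⟩ := hsep p hp p' hp' hne
  obtain ⟨w, hw, huw⟩ := mem_iUnion₂.1 (htc (mem_range_self u))
  have h2 : dist (v u) (v (k ⟨w, hw⟩)) < η := by rw [hk]; exact huw
  have h3 := abs_le.1 (h _ _ h2 p hp)
  have h4 := abs_le.1 (h _ _ h2 p' hp')
  refine le_trans ?_ (dist_le_pi_dist _ _ ⟨w, hw⟩)
  rw [Real.dist_eq]
  refine le_trans ?_ (le_abs_self _)
  linarith [h3.1, h3.2, h4.1, h4.2]

theorem trunc_scale {M : ℚ} (hM : 0 < M) {s : ℝ} (hs : |s| ≤ M) :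
    trunc (1 / (2 * M)) (1 / 2) s = s / (2 * M) + 1 / 2 := by
  have hM' : (0 : ℝ) < M := by exact_mod_cast hM
  obtain ⟨h1, h2⟩ := abs_le.1 hs
  have h3 : s / (2 * M) ≤ 1 / 2 := by rw [div_le_iff₀ (by linarith)]; linarith
  have h4 : -(1 / 2) ≤ s / (2 * M) := by rw [le_div_iff₀ (by linarith)]; linarith
  have h5 : ((1 / (2 * M) : ℚ) : ℝ) * s + ((1 / 2 : ℚ) : ℝ) = s / (2 * M) + 1 / 2 := by
    push_cast; ring
  unfold trunc
  rw [h5, max_eq_right (by linarith), min_eq_right (by linarith)]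

theorem dimLE_quo_zero {X Y : Type*} {E : Set (X → ℝ)} {E' : Set (Y → ℝ)} (hE : Lat E)
    (hE' : Lat E') (hc : E.Countable) (hc' : E'.Countable) {φ : (X → ℝ) → (Y → ℝ)}
    (hφ : Continuous φ) (h1 : ∀ f ∈ E, φ f ∈ E') {M : ℚ} (hM : 0 < M) {c : ℝ} (hc0 : 0 < c)
    (Λ : Uni E' → X → ℝ) (hΛE : ∀ u, Λ u ∈ E) (hΛb : ∀ u x, |Λ u x| ≤ M)
    (hΛ : ∀ u u' y, |φ (Λ u) y - φ (Λ u') y - c * (u.1 y - u'.1 y)| ≤ c / 8)
    (hW : Wit 0 E) : DimLE 0 (univ : Set (Quo E')) := by
  classical
  have : Countable (Uni E) := (hc.mono fun f hf => hf.1 : Set.Countable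
    {f : X → ℝ | f ∈ E ∧ ∀ x, 0 ≤ f x ∧ f x ≤ 1}).to_subtype
  have : Countable (Uni E') := (hc'.mono fun f hf => hf.1 : Set.Countable
    {f : Y → ℝ | f ∈ E' ∧ ∀ x, 0 ≤ f x ∧ f x ≤ 1}).to_subtype
  have hM' : (0 : ℝ) < M := by exact_mod_cast hM
  let ψ : (Quo E → ℝ) → (Quo E' → ℝ) := fun h => φ (h ∘ proj E) ∘ sec E'
  have hψ : Continuous ψ := continuous_pi fun _ => (continuous_apply _).comp
    (hφ.comp (continuous_pi fun _ => continuous_apply _))
  have hO := oscSys_osc hE.rich (r := fun _ => (M : ℝ)) (fun _ => hM')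
    (fun _ _ h => Eventually.of_forall fun _ => h) hψ
    fun f hf => hE'.continuous_sec (h1 _ hf)
  obtain ⟨Q, hQc, hQ, hQcov⟩ := hO.support_pieces (ε := c / 16) (by linarith)
  let F : Set (Quo E') × Set (Quo E' → Quo E) → ℕ → Set (Quo E') := fun q n =>
    {y ∈ q.1 | ∀ f ∈ box (fun _ : Quo E => (M : ℝ)), ∀ g ∈ box (fun _ : Quo E => (M : ℝ)),
      (∀ x, |f x - g x| ≤ 1 / ((n : ℝ) + 1)) → |ψ f y - ψ g y| ≤ c / 16}
  let β : Uni E' → Uni E := fun u => hE.tr (1 / (2 * M)) (1 / 2) (hΛE u)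
  have hβ : ∀ u (x : Quo E), x.1 (β u) = Λ u (sec E x) / (2 * M) + 1 / 2 := by
    intro u x
    rw [← ev_sec x]
    exact trunc_scale hM (hΛb u _)
  have hψΛ : ∀ u y, ψ (Λ u ∘ sec E) y = φ (Λ u) (sec E' y) := by
    intro u y
    show φ ((Λ u ∘ sec E) ∘ proj E) (sec E' y) = _
    rw [hE.comp_sec_proj (subset_closure (hΛE u))]
  have hKtd := (hE.dimLE_closure hW).isTotallyDisconnected
  refine dimLE_of_countable (image2 (fun q n => closure (F q n)) Q univ)
    (hQc.image2 countable_univ _) ?_ ?_ ?_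
  · rintro _ ⟨q, -, n, -, rfl⟩
    exact isClosed_closure
  · rintro _ ⟨q, hq, n, -, rfl⟩
    obtain ⟨hqc, hqf, hqs, hqO⟩ := hQ q hq
    have : Fintype q.2 := hqf.fintype
    have hη : 0 < 1 / ((n : ℝ) + 1) / (2 * M) := by positivity
    let G : Quo E' → (Uni E' → ℝ) × (q.2 → Uni E → ℝ) := fun y => (y.1, fun s => (s.1 y).1)
    have hG : ContinuousOn G q.1 :=
      continuous_subtype_val.continuousOn.prodMk (continuousOn_pi.2 fun s =>
        continuous_subtype_val.comp_continuousOn (hqs s.1 s.2))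
    set Γ := closure (G '' F q n) with hΓ
    have hΓsub : Γ ⊆ closure (range (ev E')) ×ˢ Set.pi univ fun _ => closure (range (ev E)) := by
      refine closure_minimal ?_ (isClosed_closure.prod (isClosed_set_pi fun _ _ => isClosed_closure))
      rintro _ ⟨y, -, rfl⟩
      exact ⟨subset_closure y.2, fun s _ => subset_closure (s.1 y).2⟩
    have hΓc : IsCompact Γ :=
      (isCompact_closure_ev.prod (isCompact_univ_pi fun _ => isCompact_closure_ev)).of_isClosed_subset
        isClosed_closure hΓsub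
    have hstar : ∀ u u', ∀ z ∈ Γ, dist (fun s => z.2 s (β u)) (fun s => z.2 s (β u')) <
        1 / ((n : ℝ) + 1) / (2 * M) → |z.1 u - z.1 u'| ≤ 1 / 4 := by
      intro u u' z hz hd
      have hopen : IsOpen {z : (Uni E' → ℝ) × (q.2 → Uni E → ℝ) |
          dist (fun s => z.2 s (β u)) (fun s => z.2 s (β u')) < 1 / ((n : ℝ) + 1) / (2 * M)} :=
        isOpen_lt (by fun_prop) continuous_const
      have hcl : IsClosed {z : (Uni E' → ℝ) × (q.2 → Uni E → ℝ) | |z.1 u - z.1 u'| ≤ 1 / 4} :=
        isClosed_le (by fun_prop) continuous_const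
      refine closure_minimal ?_ hcl (hopen.inter_closure ⟨hd, hz⟩)
      rintro _ ⟨hd', y, hy, rfl⟩
      have hd2 : ∀ s : q.2, |Λ u (sec E (s.1 y)) - Λ u' (sec E (s.1 y))| ≤ 1 / ((n : ℝ) + 1) := by
        intro s
        have h2 : dist ((s.1 y).1 (β u)) ((s.1 y).1 (β u')) < 1 / ((n : ℝ) + 1) / (2 * M) :=
          lt_of_le_of_lt (dist_le_pi_dist (fun s : q.2 => (s.1 y).1 (β u))
            (fun s : q.2 => (s.1 y).1 (β u')) s) hd'
        rw [hβ, hβ, Real.dist_eq, add_sub_add_right_eq_sub, ← sub_div, abs_div,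
          abs_of_pos (show (0 : ℝ) < 2 * M by linarith), div_lt_div_iff_of_pos_right
          (by linarith)] at h2
        exact h2.le
      let f : Quo E → ℝ := Λ u ∘ sec E
      let g : Quo E → ℝ := Λ u' ∘ sec E
      let m : Quo E → ℝ := fun x => if x ∈ vals q.2 y then g x else f x
      have hf : f ∈ box fun _ : Quo E => (M : ℝ) := fun x => hΛb u _
      have hg : g ∈ box fun _ : Quo E => (M : ℝ) := fun x => hΛb u' _
      have hm : m ∈ box fun _ : Quo E => (M : ℝ) := by
        intro x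
        by_cases hx : x ∈ vals q.2 y
        · simp only [m, hx, if_true]; exact hg x
        · simp only [m, hx, if_false]; exact hf x
      have e1 : |ψ f y - ψ m y| ≤ c / 16 := by
        refine hy.2 f hf m hm fun x => ?_
        by_cases hx : x ∈ vals q.2 y
        · simp only [m, hx, if_true]
          obtain ⟨s, hs, rfl⟩ := hx
          exact hd2 ⟨s, hs⟩
        · simp only [m, hx, if_false, sub_self, abs_zero]
          positivity
      have e2 : |ψ m y - ψ g y| ≤ c / 16 := by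
        refine not_lt.1 fun hlt => hqO y hy.1 ⟨m, hm, g, hg, fun x hx => ?_, hlt⟩
        have hx' : x ∈ vals q.2 y := not_not.1 hx
        simp only [m, hx', if_true]
      have e3 := hΛ u u' (sec E' y)
      rw [← hψΛ, ← hψΛ] at e3
      have e4 : y.1 u - y.1 u' = u.1 (sec E' y) - u'.1 (sec E' y) := by
        rw [← ev_sec y]; rfl
      show |y.1 u - y.1 u'| ≤ 1 / 4
      rw [e4]
      have e5 : |c * (u.1 (sec E' y) - u'.1 (sec E' y))| ≤ c * (1 / 4) := by
        rw [abs_le] at e1 e2 e3 ⊢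
        constructor <;> linarith [e1.1, e1.2, e2.1, e2.2, e3.1, e3.2]
      rw [abs_mul, abs_of_pos hc0] at e5
      exact le_of_mul_le_mul_left e5 hc0
    have hfib : ∀ a : q.2 → Uni E → ℝ, (∀ s, a s ∈ closure (range (ev E))) →
        {p | (p, a) ∈ Γ}.Countable := by
      intro a ha
      refine countable_fibre (fun u s => a s (β u)) (fun u s => ?_) hη
        (fun u u' hd p hp => hstar u u' (p, a) hp hd) fun p hp p' hp' hne => ?_
      · refine closure_minimal (s := range (ev E)) (t := {p | p (β u) ∈ Icc (0 : ℝ) 1}) ?_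
          (isClosed_Icc.preimage (continuous_apply _)) (ha s)
        rintro _ ⟨x, rfl⟩
        exact (β u).2.2 x
      · obtain ⟨b, hb1, hb2⟩ := hE'.base (hΓsub hp).1 (W := {p'}ᶜ)
          (isOpen_compl_singleton.mem_nhds hne)
        exact ⟨b, hb1, by_contra fun h => hb2 p' (hΓsub hp').1 h rfl⟩
    have hΓtd : IsTotallyDisconnected Γ := by
      intro t htΓ ht z hz z' hz'
      have h2 : ∀ w ∈ t, w.2 = z.2 := by
        intro w hw
        funext s
        refine hKtd ((fun w => w.2 s) '' t) ?_ (ht.image _ (by fun_prop))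
          (mem_image_of_mem _ hw) (mem_image_of_mem _ hz)
        rintro _ ⟨w', hw', rfl⟩
        exact (hΓsub (htΓ hw')).2 s (mem_univ _)
      refine Prod.ext (funext fun b => ?_) (h2 z' hz').symm
      have h3 : ((fun w => w.1 b) '' t).Countable := by
        refine ((hfib z.2 fun s => (hΓsub (htΓ hz)).2 s (mem_univ _)).image fun p => p b).mono ?_
        rintro _ ⟨w, hw, rfl⟩
        refine ⟨w.1, ?_, rfl⟩
        rw [mem_ofPred_eq, ← h2 w hw]
        exact htΓ hw
      exact h3.isTotallyDisconnected _ Subset.rfl (ht.image _ (by fun_prop))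
        (mem_image_of_mem _ hz) (mem_image_of_mem _ hz')
    have hZ : closure (F q n) ⊆ q.1 := closure_minimal (fun y hy => hy.1) hqc
    let e : closure (F q n) → (Uni E' → ℝ) × (q.2 → Uni E → ℝ) := fun y => G y.1
    have he : Continuous e := continuousOn_iff_continuous_domRestrict.1 (hG.mono hZ)
    have hind : IsInducing e := IsInducing.of_comp he continuous_fst
      (IsInducing.subtypeVal.comp IsInducing.subtypeVal)
    have h3 : DimLE 0 (univ : Set (closure (F q n))) := by
      refine DimLE.of_image hind ((dimLE_zero_of_compact hΓc hΓtd).subset ?_)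
      rintro _ ⟨y, -, rfl⟩
      exact ((hG y.1 (hZ y.2)).mono fun w hw => hw.1).mem_closure_image y.2
    have h4 := h3.image IsInducing.subtypeVal
    rwa [Subtype.coe_image_univ] at h4
  · intro y
    obtain ⟨q, hq, hyq⟩ := hQcov y
    obtain ⟨n, hn⟩ := exists_modulus hψ (fun _ => (M : ℝ)) y (ε := c / 16) (by linarith)
    exact ⟨_, mem_image2_of_mem hq (mem_univ n), subset_closure ⟨hyq, hn⟩⟩

end Pool.Agent.Lib.MP_e6a955_gt
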