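import Mathlib
import Pool.Agent.Lib.MP_e6a955_gt.OneC

set_option autoImplicit false

/-!
One-sided preservation of covering dimension zero for arbitrary spaces.
-/

namespace Pool.Agent.Lib.MP_e6a955_gt

open Set Topology Filter TopologicalSpace BoundedContinuousFunction

variable {X Y : Type*} [TopologicalSpace X] [TopologicalSpace Y]

/-- Approximate bounded preimages of a ball, by the Baire theorem. -/
theorem exists_lift {φ : (X → ℝ) → (Y → ℝ)} (h2 : Bdd Y ⊆ φ '' Bdd X) :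
    ∃ (M : ℚ) (c : ℝ) (g0 : Y → ℝ) (Λ : (Y → ℝ) → X → ℝ), 0 < M ∧ 0 < c ∧
      (∀ u, Continuous (Λ u) ∧ ∀ x, |Λ u x| ≤ M) ∧
      ∀ u, Continuous u → (∀ y, 0 ≤ u y ∧ u y ≤ 1) →
        ∀ y, |φ (Λ u) y - (g0 y + c * u y)| ≤ c / 16 := by
  let T : ℕ → Set (Y →ᵇ ℝ) := fun m =>
    {g | ∃ f : X → ℝ, Continuous f ∧ (∀ x, |f x| ≤ (m : ℝ) + 1) ∧ φ f = g}
  have hU : ⋃ m, closure (T m) = univ := by
    rw [eq_univ_iff_forall]
    intro g
    obtain ⟨f, ⟨hf, M, hM⟩, hfg⟩ := h2 (show (g : Y → ℝ) ∈ Bdd Y from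
      ⟨g.continuous, ‖g‖, fun y => g.norm_coe_le_norm y⟩)
    obtain ⟨m, hm⟩ := exists_nat_ge M
    exact mem_iUnion.2 ⟨m, subset_closure ⟨f, hf, fun x => by have := hM x; linarith, hfg⟩⟩
  obtain ⟨m, g0, hg0⟩ := nonempty_interior_of_iUnion_of_closed
    (fun m => isClosed_closure (s := T m)) hU
  obtain ⟨δ, hδ, hb⟩ := Metric.mem_nhds_iff.1 (mem_interior_iff_mem_nhds.1 hg0)
  have key : ∀ u : Y → ℝ, ∃ f : X → ℝ, (Continuous f ∧ ∀ x, |f x| ≤ (m : ℝ) + 1) ∧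
      (Continuous u → (∀ y, 0 ≤ u y ∧ u y ≤ 1) →
        ∀ y, |φ f y - (g0 y + δ / 2 * u y)| ≤ δ / 2 / 16) := by
    intro u
    by_cases hu : Continuous u ∧ ∀ y, 0 ≤ u y ∧ u y ≤ 1
    · let ub : Y →ᵇ ℝ := ofNormedAddCommGroup u hu.1 1 fun y => by
        rw [Real.norm_eq_abs, abs_of_nonneg (hu.2 y).1]; exact (hu.2 y).2
      have h3 : g0 + (δ / 2) • ub ∈ Metric.ball g0 δ := by
        rw [Metric.mem_ball]
        refine lt_of_le_of_lt ((BoundedContinuousFunction.dist_le (by linarith)).2 fun y => ?_)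
          (show δ / 2 < δ by linarith)
        show |g0 y + δ / 2 * u y - g0 y| ≤ δ / 2
        have h4 := hu.2 y
        rw [add_sub_cancel_left, abs_le]
        constructor <;> nlinarith [h4.1, h4.2]
      obtain ⟨g, ⟨f, hf, hfb, hfg⟩, hd⟩ := Metric.mem_closure_iff.1 (hb h3) (δ / 2 / 16)
        (by linarith)
      refine ⟨f, ⟨hf, hfb⟩, fun _ _ y => ?_⟩
      have h5 := (dist_coe_le_dist (f := g0 + (δ / 2) • ub) (g := g) y).trans hd.le
      rw [hfg, abs_sub_comm]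
      exact h5
    · exact ⟨0, ⟨continuous_const, fun x => by simp; positivity⟩,
        fun a b => absurd ⟨a, b⟩ hu⟩
  choose Λ hΛ1 hΛ2 using key
  refine ⟨(m : ℚ) + 1, δ / 2, g0, Λ, by positivity, by linarith, fun u => ⟨(hΛ1 u).1, ?_⟩, hΛ2⟩
  push_cast
  exact (hΛ1 u).2

theorem ops_bdd {t : Set (X → ℝ)} (ht : t ⊆ Bdd X) : ops t ⊆ Bdd X := by
  intro f hf
  refine ⟨ops_continuous (fun g hg => (ht hg).1) hf, ?_⟩
  rcases hf with ((⟨q, rfl⟩ | ⟨q, -, f, hf, rfl⟩) | ⟨f, hf, g, hg, rfl⟩) | ⟨f, hf, g, hg, rfl⟩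
  · exact ⟨|(q : ℝ)|, fun _ => le_rfl⟩
  · obtain ⟨M, hM⟩ := (ht hf).2
    refine ⟨|(q : ℝ)| * M, fun x => ?_⟩
    show |(q : ℝ) * f x| ≤ _
    rw [abs_mul]
    exact mul_le_mul_of_nonneg_left (hM x) (abs_nonneg _)
  · obtain ⟨M, hM⟩ := (ht hf).2
    obtain ⟨N, hN⟩ := (ht hg).2
    exact ⟨M + N, fun x => (abs_add_le _ _).trans (add_le_add (hM x) (hN x))⟩
  · obtain ⟨M, hM⟩ := (ht hf).2
    obtain ⟨N, hN⟩ := (ht hg).2
    exact ⟨max M N, fun x => (abs_max_le_max_abs_abs).trans (max_le_max (hM x) (hN x))⟩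

theorem cozDim_zero_of_map {φ : (X → ℝ) → (Y → ℝ)} (hφ : Continuous φ)
    (h1 : ∀ f ∈ Bdd X, Continuous (φ f)) (h2 : Bdd Y ⊆ φ '' Bdd X) (hX : CozDim X 0) :
    CozDim Y 0 := by
  classical
  intro k U hU hUc
  choose u hu using hU
  obtain ⟨M, c, g0, Λ, hM, hc0, hΛ1, hΛ2⟩ := exists_lift h2
  have hwit : ∀ t : Set (X → ℝ), ∃ w : Set (X → ℝ), w.Finite ∧ w ⊆ Bdd X ∧
      (t.Finite → t ⊆ {f | Continuous f} → (∀ x, ∃ b ∈ t, 1 / 2 < b x) →
        ∃ (m : ℕ) (g : Fin m → X → ℝ), (∀ j, g j ∈ w) ∧ (∀ j x, 0 ≤ g j x ∧ g j x ≤ 1) ∧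
        (∀ x, ∑ j, g j x = 1) ∧ (∀ j, ∃ b ∈ t, ∀ x, g j x ≠ 0 → 1 / 2 ≤ b x) ∧
        ∀ s : Finset (Fin m), s.card = 0 + 2 → ∀ x, ∃ j ∈ s, g j x = 0) := by
    intro t
    by_cases h : t.Finite ∧ t ⊆ {f | Continuous f} ∧ ∀ x, ∃ b ∈ t, 1 / 2 < b x
    · obtain ⟨m, g, hg, hrest⟩ := exists_wit hX t h.1 h.2.1 h.2.2
      refine ⟨range g, finite_range g, ?_,
        fun _ _ _ => ⟨m, g, fun j => mem_range_self j, hrest⟩⟩
      rintro _ ⟨j, rfl⟩
      exact ⟨hg j, 1, fun x => by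
        rw [abs_of_nonneg (hrest.1 j x).1]; exact (hrest.1 j x).2⟩
    · exact ⟨∅, finite_empty, empty_subset _, fun a b c => absurd ⟨a, b, c⟩ h⟩
  choose wit hw1 hw2 hw3 using hwit
  obtain ⟨s, hsc, hs0, hsC, hsG⟩ := exists_closed_countable
    (α := (X → ℝ) ⊕ (Y → ℝ)) (Sum.inl '' Bdd X ∪ Sum.inr '' {g | Continuous g})
    (fun t => Sum.inl '' (ops (Sum.inl ⁻¹' t) ∪ wit (Sum.inl ⁻¹' t) ∪ Λ '' (Sum.inr ⁻¹' t)) ∪
      Sum.inr '' (ops (Sum.inr ⁻¹' t) ∪ φ '' (Sum.inl ⁻¹' t)))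
    (range fun i => Sum.inr (u i : Y → ℝ)) (countable_range _)
    (by rintro _ ⟨i, rfl⟩; exact Or.inr ⟨_, (u i).continuous, rfl⟩)
    (by
      intro t ht
      have a1 := ht.countable.preimage (f := Sum.inl) Sum.inl_injective
      have a2 := ht.countable.preimage (f := Sum.inr) Sum.inr_injective
      exact ((((ops_countable a1).union (hw1 _).countable).union (a2.image _)).image _).union
        (((ops_countable a2).union (a1.image _)).image _))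
    (by
      intro t _ htC
      have a1 : Sum.inl ⁻¹' t ⊆ Bdd X := by
        intro f hf
        rcases htC hf with ⟨g, hg, h⟩ | ⟨g, -, h⟩
        · exact Sum.inl_injective h ▸ hg
        · exact absurd h Sum.inr_ne_inl
      have a2 : Sum.inr ⁻¹' t ⊆ {g | Continuous g} := by
        intro f hf
        rcases htC hf with ⟨g, -, h⟩ | ⟨g, hg, h⟩
        · exact absurd h Sum.inl_ne_inr
        · exact Sum.inr_injective h ▸ hg
      refine union_subset_union (image_mono ?_) (image_mono ?_)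
      · refine union_subset (union_subset (ops_bdd a1) (hw2 _)) ?_
        rintro _ ⟨v, -, rfl⟩
        exact ⟨(hΛ1 v).1, M, (hΛ1 v).2⟩
      · refine union_subset (ops_continuous a2) ?_
        rintro _ ⟨f, hf, rfl⟩
        exact h1 f (a1 hf))
  set E : Set (X → ℝ) := Sum.inl ⁻¹' s with hEdef
  set E' : Set (Y → ℝ) := Sum.inr ⁻¹' s with hE'def
  have hEc : E.Countable := hsc.preimage Sum.inl_injective
  have hE'c : E'.Countable := hsc.preimage Sum.inr_injective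
  have hEC : E ⊆ {f | Continuous f} := by
    intro f hf
    rcases hsC hf with ⟨g, hg, h⟩ | ⟨g, -, h⟩
    · exact Sum.inl_injective h ▸ hg.1
    · exact absurd h Sum.inr_ne_inl
  have hE'C : E' ⊆ {f | Continuous f} := by
    intro f hf
    rcases hsC hf with ⟨g, -, h⟩ | ⟨g, hg, h⟩
    · exact absurd h Sum.inl_ne_inr
    · exact Sum.inr_injective h ▸ hg
  have hL : ∀ t : Set (X → ℝ), t.Finite → t ⊆ E → ops t ⊆ E ∧ wit t ⊆ E ∧ φ '' t ⊆ E' := by
    intro t ht htE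
    have h3 := hsG (Sum.inl '' t) (ht.image _) (image_subset_iff.2 htE)
    rw [preimage_image_eq _ Sum.inl_injective] at h3
    exact ⟨fun f hf => h3 (Or.inl ⟨f, Or.inl (Or.inl hf), rfl⟩),
      fun f hf => h3 (Or.inl ⟨f, Or.inl (Or.inr hf), rfl⟩),
      fun f hf => h3 (Or.inr ⟨f, Or.inr hf, rfl⟩)⟩
  have hR : ∀ t : Set (Y → ℝ), t.Finite → t ⊆ E' → ops t ⊆ E' ∧ Λ '' t ⊆ E := by
    intro t ht htE
    have h3 := hsG (Sum.inr '' t) (ht.image _) (image_subset_iff.2 htE)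
    rw [preimage_image_eq _ Sum.inr_injective] at h3
    exact ⟨fun f hf => h3 (Or.inr ⟨f, Or.inl hf, rfl⟩),
      fun f hf => h3 (Or.inl ⟨f, Or.inr hf, rfl⟩)⟩
  have hE : Lat E := lat_of_ops fun t ht htE => (hL t ht htE).1
  have hE' : Lat E' := lat_of_ops fun t ht htE => (hR t ht htE).1
  have hW : Wit 0 E := by
    intro t ht htE hcov
    obtain ⟨m, g, hg, hrest⟩ := hw3 t ht (htE.trans hEC) hcov
    exact ⟨m, g, fun j => (hL t ht htE).2.1 (hg j), hrest⟩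
  have hdim := dimLE_quo_zero hE hE' hEc hE'c hφ
    (fun f hf => (hL {f} (finite_singleton _) (singleton_subset_iff.2 hf)).2.2 ⟨f, rfl, rfl⟩)
    hM hc0 (fun v => Λ v.1)
    (fun v => (hR {v.1} (finite_singleton _) (singleton_subset_iff.2 v.2.1)).2 ⟨v.1, rfl, rfl⟩)
    (fun v => (hΛ1 v.1).2) (by
      intro v v' y
      have a1 := abs_le.1 (hΛ2 v.1 (hE'C v.2.1) v.2.2 y)
      have a2 := abs_le.1 (hΛ2 v'.1 (hE'C v'.2.1) v'.2.2 y)
      rw [abs_le]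
      constructor <;> linarith [a1.1, a1.2, a2.1, a2.2]) hW
  have huE : ∀ i, (u i : Y → ℝ) ∈ E' := fun i => hs0 (mem_range_self i)
  have hval : ∀ i y, u i (sec E' (proj E' y)) = u i y := fun i y =>
    congrFun (hE'.comp_sec_proj (subset_closure (huE i))) y
  obtain ⟨V, hVo, hVU, hVc, hVord⟩ := hdim (Fin k) (fun i => {p | u i (sec E' p) ≠ 0})
    (fun i => isOpen_ne_fun (hE'.continuous_sec (huE i)) continuous_const) (by
      intro p _
      obtain ⟨i, hi⟩ := mem_iUnion.1 (hUc.symm ▸ mem_univ _ : sec E' p ∈ ⋃ i, U i)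
      rw [hu i] at hi
      exact ⟨i, hi⟩)
  have : Countable (Uni E') := (hE'c.mono fun f hf => hf.1 : Set.Countable
    {f : Y → ℝ | f ∈ E' ∧ ∀ x, 0 ≤ f x ∧ f x ≤ 1}).to_subtype
  have hproj : Continuous (proj E') :=
    Continuous.subtype_mk (continuous_pi fun b => hE'C b.2.1) _
  refine ⟨k, fun i => proj E' ⁻¹' V i, ?_, ?_, ?_, ?_⟩
  · intro i
    obtain ⟨d, hd, -, hd0⟩ := exists_zero_fun (hVo i).isClosed_compl
    refine ⟨⟨d ∘ proj E', hd.comp hproj⟩, ?_⟩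
    ext y
    simp only [mem_preimage, mem_ofPred_eq, ContinuousMap.coe_mk, Function.comp_apply, ne_eq,
      hd0, mem_compl_iff, not_not]
  · rw [eq_univ_iff_forall]
    intro y
    obtain ⟨i, hi⟩ := hVc (proj E' y) (mem_univ _)
    exact mem_iUnion.2 ⟨i, hi⟩
  · intro i
    refine ⟨i, fun y hy => ?_⟩
    have h3 : u i (sec E' (proj E' y)) ≠ 0 := hVU i hy
    rw [hval] at h3
    rw [hu i]
    exact h3
  · intro s hs
    rw [eq_empty_iff_forall_notMem]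
    intro y hy
    obtain ⟨i, hi, h⟩ := hVord (proj E' y) (mem_univ _) s hs
    exact h (mem_iInter₂.1 hy i hi)

end Pool.Agent.Lib.MP_e6a955_gt
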