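import Mathlib
import Pool.Agent.Lib.MP_e6a955_gt.OneD

set_option autoImplicit false

/-!
One-sided preservation of strong countable-dimensionality.
-/

namespace Pool.Agent.Lib.MP_e6a955_gt

open Set Topology Filter TopologicalSpace

variable {T S : Type*} [TopologicalSpace T] [TopologicalSpace S]

theorem DimLE.mono {n m : ℕ} {A : Set T} (h : DimLE n A) (hnm : n ≤ m) : DimLE m A := by
  intro ι _ U hUo hUc
  obtain ⟨V, h1, h2, h3, h4⟩ := h ι U hUo hUc
  refine ⟨V, h1, h2, h3, fun y hy s hs => ?_⟩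
  obtain ⟨t, hts, ht⟩ := Finset.exists_subset_card_eq (s := s) (n := n + 2) (by omega)
  obtain ⟨i, hi, hyi⟩ := h4 y hy t ht
  exact ⟨i, hts hi, hyi⟩

theorem DimLE.preimage_val {n : ℕ} {A B : Set T} (h : DimLE n (A ∩ B)) :
    DimLE n (Subtype.val ⁻¹' B : Set A) := by
  refine DimLE.of_image IsInducing.subtypeVal ?_
  rwa [Subtype.image_preimage_coe]

theorem DimLE.of_univ {n : ℕ} {A : Set T} (h : DimLE n (univ : Set A)) : DimLE n A := by
  have := h.image IsInducing.subtypeVal
  rwa [Subtype.coe_image_univ] at this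

theorem DimLE.union [MetrizableSpace T] {n : ℕ} {A B : Set T} (hA : IsClosed A) (hB : IsClosed B)
    (h1 : DimLE n A) (h2 : DimLE n B) : DimLE n (A ∪ B) := by
  refine DimLE.of_univ (dimLE_of_countable
    {(Subtype.val ⁻¹' A : Set ↥(A ∪ B)), Subtype.val ⁻¹' B} (toFinite _).countable ?_ ?_ ?_)
  · rintro _ (rfl | rfl)
    · exact hA.preimage continuous_subtype_val
    · exact hB.preimage continuous_subtype_val
  · rintro _ (rfl | rfl)
    · exact DimLE.preimage_val (by rwa [union_inter_cancel_left])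
    · exact DimLE.preimage_val (by rwa [union_inter_cancel_right])
  · rintro ⟨y, hy | hy⟩
    · exact ⟨_, Or.inl rfl, hy⟩
    · exact ⟨_, Or.inr rfl, hy⟩

/-- A weak form of the theorem on dimension-lowering maps. -/
theorem dimLE_of_fibres [CompactSpace T] [MetrizableSpace T] [T2Space S] {f : T → S}
    (hf : Continuous f) {n k : ℕ} (hn : DimLE n (range f)) (hk : ∀ x, DimLE k (f ⁻¹' {x})) :
    DimLE ((k + 1) * (n + 1)) (univ : Set T) := by
  classical
  intro ι _ U hUo hUc
  have hstep := fun x : S => sum_step (isClosed_singleton.preimage hf) (hk x) U hUo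
    fun y => hUc y (mem_univ y)
  choose W hWo hWc hWU hWord using hstep
  let B : S → Set T := fun x => ⋃ s : {s : Finset ι // s.card = k + 2}, ⋂ i ∈ s.1, closure (W x i)
  have hB : ∀ x, IsClosed (B x) := fun x =>
    isClosed_iUnion_of_finite fun s => isClosed_biInter fun i _ => isClosed_closure
  obtain ⟨t, ht⟩ := (isCompact_range hf).elim_finite_subcover (fun x => (f '' B x)ᶜ)
    (fun x => ((hB x).isCompact.image hf).isClosed.isOpen_compl) (by
      intro x _
      refine mem_iUnion.2 ⟨x, ?_⟩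
      rintro ⟨z, hz, hzx⟩
      obtain ⟨s, hs⟩ := mem_iUnion.1 hz
      obtain ⟨i, hi, hzi⟩ := hWord x z hzx s.1 s.2
      exact hzi (mem_iInter₂.1 hs i hi))
  let c : Fin t.card → S := fun j => t.equivFin.symm j
  obtain ⟨V, hVo, hVU, hVc, hVord⟩ := hn (Fin t.card) (fun j => (f '' B (c j))ᶜ)
    (fun j => ((hB _).isCompact.image hf).isClosed.isOpen_compl) (by
      intro x hx
      obtain ⟨a, ha, hxa⟩ := mem_iUnion₂.1 (ht hx)
      exact ⟨t.equivFin ⟨a, ha⟩, by simpa [c] using hxa⟩)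
  refine shrink_of_refine U (fun p : Fin t.card × ι => f ⁻¹' V p.1 ∩ W (c p.1) p.2)
    (fun p => ((hVo _).preimage hf).inter (hWo _ _))
    (fun p => ⟨p.2, inter_subset_right.trans (subset_closure.trans (hWU _ _))⟩) ?_ ?_
  · intro y _
    obtain ⟨j, hj⟩ := hVc (f y) (mem_range_self y)
    obtain ⟨i, hi⟩ := hWc (c j) y
    exact ⟨(j, i), hj, hi⟩
  · intro y _ s hs
    by_contra hcon
    push Not at hcon
    have h1 : (s.image Prod.fst).card ≤ n + 1 := by
      by_contra hlt
      obtain ⟨r, hrs, hr⟩ := Finset.exists_subset_card_eq (s := s.image Prod.fst) (n := n + 2)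
        (by omega)
      obtain ⟨j, hj, hyj⟩ := hVord (f y) (mem_range_self y) r hr
      obtain ⟨p, hp, rfl⟩ := Finset.mem_image.1 (hrs hj)
      exact hyj (hcon p hp).1
    have h2 : ∀ j ∈ s.image Prod.fst, (s.filter fun p => p.1 = j).card ≤ k + 1 := by
      intro j hj
      by_contra hlt
      have h3 : ((s.filter fun p => p.1 = j).image Prod.snd).card =
          (s.filter fun p => p.1 = j).card := by
        refine Finset.card_image_of_injOn fun p hp p' hp' hpp => ?_
        exact Prod.ext ((Finset.mem_filter.1 hp).2.trans (Finset.mem_filter.1 hp').2.symm) hpp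
      obtain ⟨r, hrs, hr⟩ := Finset.exists_subset_card_eq
        (s := (s.filter fun p => p.1 = j).image Prod.snd) (n := k + 2) (by omega)
      obtain ⟨p0, hp0, hp0j⟩ := Finset.mem_image.1 hj
      refine hVU j (hp0j ▸ (hcon p0 hp0).1) ⟨y, mem_iUnion.2 ⟨⟨r, hr⟩, mem_iInter₂.2 ?_⟩, rfl⟩
      intro i hi
      obtain ⟨p, hp, rfl⟩ := Finset.mem_image.1 (hrs hi)
      have h4 := (hcon p (Finset.mem_filter.1 hp).1).2
      rw [(Finset.mem_filter.1 hp).2] at h4
      exact subset_closure h4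
    have h5 := Finset.card_le_mul_card_image s (k + 1) h2
    have h6 := Nat.mul_le_mul_left (k + 1) h1
    omega

variable {X Y : Type*} [TopologicalSpace X] [TopologicalSpace Y]

/-- Finitely many maps into finite-dimensional sets with countable joint fibres. -/
theorem dimLE_of_maps [MetrizableSpace X] [CompactSpace Y] [MetrizableSpace Y] {n : ℕ} {A : Set X}
    (hA : DimLE n A) {S : Set (Y → X)} (hS : S.Finite) :
    ∃ N, ∀ Z : Set Y, IsClosed Z → (∀ s ∈ S, ContinuousOn s Z ∧ MapsTo s Z A) →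
      (∀ a : (Y → X) → X, {z ∈ Z | ∀ s ∈ S, s z = a s}.Countable) → DimLE N Z := by
  classical
  induction S, hS using Set.Finite.induction_on with
  | empty =>
    refine ⟨0, fun Z hZ _ hc => dimLE_zero_of_compact hZ.isCompact ?_⟩
    rcases Z.eq_empty_or_nonempty with rfl | hne
    · exact isTotallyDisconnected_empty
    obtain ⟨y, -⟩ := hne
    refine isTotallyDisconnected_of_countable ((hc fun s => s y).mono fun z hz => ?_)
    exact And.intro hz fun s hs => absurd hs (notMem_empty s)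
  | @insert s S hs _ ih =>
    obtain ⟨N, hN⟩ := ih
    refine ⟨(N + 1) * (n + 1), fun Z hZ hm hc => DimLE.of_univ ?_⟩
    have : CompactSpace Z := isCompact_iff_compactSpace.1 hZ.isCompact
    have hs1 := hm s (mem_insert _ _)
    refine dimLE_of_fibres (f := fun z : Z => s z.1)
      (continuousOn_iff_continuous_domRestrict.1 hs1.1) (hA.subset ?_) fun x => ?_
    · rintro _ ⟨z, rfl⟩
      exact hs1.2 z.2
    · refine DimLE.preimage_val (A := Z) (B := s ⁻¹' {x}) (hN _
        (hs1.1.preimage_isClosed_of_isClosed hZ isClosed_singleton) ?_ ?_)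
      · intro s' hs'
        exact ⟨(hm s' (mem_insert_of_mem _ hs')).1.mono inter_subset_left,
          (hm s' (mem_insert_of_mem _ hs')).2.mono_left inter_subset_left⟩
      · intro a
        refine (hc (Function.update a s x)).mono ?_
        rintro z ⟨⟨hzZ, hzx⟩, hz⟩
        refine ⟨hzZ, fun s' hs' => ?_⟩
        rcases hs' with rfl | hs'
        · rw [Function.update_self]; exact hzx
        · have hne : s' ≠ s := fun h => hs (h ▸ hs')
          rw [Function.update_of_ne hne]
          exact hz s' hs'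

theorem dimLE_of_cozDim [MetrizableSpace T] {n : ℕ} (h : CozDim T n) : DimLE n (univ : Set T) := by
  intro ι _ U hUo hUc
  obtain ⟨k, ⟨e⟩⟩ := Finite.exists_equiv_fin ι
  obtain ⟨m, V, hV, hVc, hVU, hVord⟩ := h k (fun i => U (e.symm i)) (by
    intro i
    obtain ⟨d, hd, -, hd0⟩ := exists_zero_fun (hUo (e.symm i)).isClosed_compl
    refine ⟨⟨d, hd⟩, ?_⟩
    ext y
    simp only [mem_ofPred_eq, ContinuousMap.coe_mk, ne_eq, hd0, mem_compl_iff, not_not]) (by
    rw [eq_univ_iff_forall]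
    intro y
    obtain ⟨i, hi⟩ := hUc y (mem_univ y)
    exact mem_iUnion.2 ⟨e i, by simpa using hi⟩)
  refine shrink_of_refine U V (fun j => ?_) (fun j => ?_)
    (fun y _ => mem_iUnion.1 (hVc.symm ▸ mem_univ y)) fun y _ s hs => ?_
  · obtain ⟨f, hf⟩ := hV j
    rw [hf]
    exact isOpen_ne_fun f.continuous continuous_const
  · obtain ⟨i, hi⟩ := hVU j
    exact ⟨_, hi⟩
  · by_contra hcon
    push Not at hcon
    have : y ∈ ⋂ j ∈ s, V j := mem_iInter₂.2 hcon
    rw [hVord s hs] at this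
    exact this

theorem cozDim_of_dimLE [MetrizableSpace T] {n : ℕ} (h : DimLE n (univ : Set T)) : CozDim T n := by
  intro k U hU hUc
  obtain ⟨V, hVo, hVU, hVc, hVord⟩ := h (Fin k) U (fun i => by
    obtain ⟨f, hf⟩ := hU i
    rw [hf]
    exact isOpen_ne_fun f.continuous continuous_const)
    (fun y _ => mem_iUnion.1 (hUc.symm ▸ mem_univ y))
  refine ⟨k, V, fun i => ?_, eq_univ_of_forall fun y => mem_iUnion.2 (hVc y (mem_univ y)),
    fun i => ⟨i, hVU i⟩, fun s hs => ?_⟩
  · obtain ⟨d, hd, -, hd0⟩ := exists_zero_fun (hVo i).isClosed_compl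
    refine ⟨⟨d, hd⟩, ?_⟩
    ext y
    simp only [mem_ofPred_eq, ContinuousMap.coe_mk, ne_eq, hd0, mem_compl_iff, not_not]
  · rw [eq_empty_iff_forall_notMem]
    intro y hy
    obtain ⟨i, hi, h⟩ := hVord y (mem_univ _) s hs
    exact h (mem_iInter₂.1 hy i hi)

/-- A countable union of closed sets of finite dimension. -/
def SCD (T : Type*) [TopologicalSpace T] : Prop :=
  ∃ F : ℕ → Set T, (∀ i, IsClosed (F i)) ∧ (⋃ i, F i) = univ ∧ ∀ i, ∃ n, CozDim (F i) n

theorem scd_of_map [MetrizableSpace X] [SecondCountableTopology X] [CompactSpace Y]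
    [MetrizableSpace Y] {φ : (X → ℝ) → (Y → ℝ)} (hφ : Continuous φ)
    (h : φ '' Bdd X = {g | Continuous g}) (hX : SCD X) : SCD Y := by
  obtain ⟨F, hFc, hFu, hFd⟩ := hX
  obtain ⟨O, ε, hO, hε, hc⟩ := exists_system hφ h
  have : SecondCountableTopology Y := by
    let := metrizableSpaceMetric Y
    infer_instance
  obtain ⟨Q, hQc, hQ, hQcov⟩ := hO.support_pieces hε
  have hG : ∀ m, IsClosed (accumulate F m) ∧ ∃ n, DimLE n (accumulate F m) := by
    intro m
    induction m with
    | zero =>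
      obtain ⟨n, hn⟩ := hFd 0
      rw [accumulate_zero_nat]
      exact ⟨hFc 0, n, (dimLE_of_cozDim hn).of_univ⟩
    | succ m ih =>
      obtain ⟨n, hn⟩ := hFd (m + 1)
      obtain ⟨h1, n', hn'⟩ := ih
      rw [accumulate_succ]
      exact ⟨h1.union (hFc _), max n' n, DimLE.union h1 (hFc _) (hn'.mono (le_max_left _ _))
        ((dimLE_of_cozDim hn).of_univ.mono (le_max_right _ _))⟩
  let Z : Set Y × Set (Y → X) → ℕ → Set Y := fun q m => {y ∈ q.1 | ∀ s ∈ q.2, s y ∈ accumulate F m}
  obtain ⟨G, hGr⟩ := ((hQc.image2 countable_univ Z).insert ∅).exists_eq_range (insert_nonempty _ _)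
  have hgood : ∀ i, IsClosed (G i) ∧ ∃ n, DimLE n (G i) := by
    intro i
    have hi : G i ∈ insert ∅ (image2 Z Q univ) := hGr ▸ mem_range_self i
    rcases hi with hi | ⟨q, hq, m, -, hi⟩
    · rw [hi]; exact ⟨isClosed_empty, 0, dimLE_empty⟩
    rw [← hi]
    obtain ⟨hqc, hqf, hqs, hqO⟩ := hQ q hq
    have hZc : IsClosed (Z q m) := by
      have : Z q m = q.1 ∩ ⋂ s ∈ q.2, (q.1 ∩ s ⁻¹' accumulate F m) := by
        ext y
        simp only [Z, mem_ofPred_eq, mem_inter_iff, mem_iInter, mem_preimage]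
        exact ⟨fun h => ⟨h.1, fun s hs => ⟨h.1, h.2 s hs⟩⟩, fun h => ⟨h.1, fun s hs => (h.2 s hs).2⟩⟩
      rw [this]
      exact hqc.inter (isClosed_biInter fun s hs =>
        (hqs s hs).preimage_isClosed_of_isClosed hqc (hG m).1)
    obtain ⟨n, hn⟩ := (hG m).2
    obtain ⟨N, hN⟩ := dimLE_of_maps hn hqf
    refine ⟨hZc, N, hN _ hZc (fun s hs => ⟨(hqs s hs).mono fun y hy => hy.1,
      fun y hy => hy.2 s hs⟩) fun a => (hc (a '' q.2) (hqf.image _)).mono fun z hz => ?_⟩
    have h1 : vals q.2 z = a '' q.2 := image_congr hz.2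
    rw [mem_ofPred_eq, ← h1]
    exact hqO z hz.1.1
  refine ⟨G, fun i => (hgood i).1, eq_univ_of_forall fun y => ?_, fun i => ?_⟩
  · obtain ⟨q, hq, hyq⟩ := hQcov y
    have h1 : ∀ᶠ m in atTop, ∀ s ∈ q.2, s y ∈ accumulate F m := by
      refine (eventually_all_finite (hQ q hq).2.1).2 fun s _ => ?_
      obtain ⟨j, hj⟩ := mem_iUnion.1 (hFu.symm ▸ mem_univ (s y) : s y ∈ ⋃ i, F i)
      filter_upwards [eventually_ge_atTop j] with m hm
      exact mem_accumulate.2 ⟨j, hm, hj⟩
    obtain ⟨m, hm⟩ := h1.exists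
    have h2 : Z q m ∈ range G := hGr ▸ mem_insert_of_mem _ (mem_image2_of_mem hq (mem_univ m))
    obtain ⟨i, hi⟩ := h2
    exact mem_iUnion.2 ⟨i, hi ▸ ⟨hyq, hm⟩⟩
  · obtain ⟨n, hn⟩ := (hgood i).2
    refine ⟨n, cozDim_of_dimLE (DimLE.of_image IsInducing.subtypeVal ?_)⟩
    rwa [Subtype.coe_image_univ]

end Pool.Agent.Lib.MP_e6a955_gt
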